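import Mathlib
import Pool.Agent.H12.Mertens
import Pool.Agent.H12.Middle

/-!
Scales, one-variable sieve, typical integers.
-/

namespace Pool.Agent.H70.SymDes

open Finset Pool.Agent.H12

/-- the odd primes below `2^(2^i)` -/
def PP (i : ℕ) : Finset ℕ := oddPrimes (2^(2^i))

/-- the sieve depth -/
def rr (i : ℕ) : ℕ := 100 * (i + 2)

/-- sum of the reciprocals -/
noncomputable def SS (i : ℕ) : ℝ := ∑ p ∈ PP i, (1:ℝ)/p

/-- the sieving limit -/
noncomputable def YY (i : ℕ) : ℝ := 2^(2^i)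

/-- the error allowed -/
noncomputable def th (i : ℕ) : ℝ := Real.exp (-((rr i : ℝ) + 1))

lemma rr_even (i : ℕ) : Even (rr i) := ⟨50 * (i+2), by unfold rr; ring⟩

lemma th_pos (i : ℕ) : 0 < th i := Real.exp_pos _

lemma th_le_one (i : ℕ) : th i ≤ 1 := by
  unfold th
  rw [Real.exp_le_one_iff]
  have : (0:ℝ) ≤ rr i := by positivity
  linarith

lemma mem_PP {i p : ℕ} : p ∈ PP i ↔ p ≠ 2 ∧ p < 2^(2^i) ∧ p.Prime := mem_oddPrimes

lemma PP_ge {i p : ℕ} (hp : p ∈ PP i) : 3 ≤ p := by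
  rw [mem_PP] at hp
  have := hp.2.2.two_le
  omega

lemma SS_nonneg (i : ℕ) : 0 ≤ SS i := sum_nonneg fun p _ => by positivity

lemma SS_le (i : ℕ) : SS i ≤ 4 + 3 * i := by
  have h := sum_inv_oddPrimes (2^(2^i)) (2^i) (Nat.pow_le_pow_right (by norm_num) (by omega))
  have h2 : Real.log ((2^i : ℕ) : ℝ) = i * Real.log 2 := by
    push_cast; rw [Real.log_pow]
  rw [h2] at h
  have h3 := Real.log_two_lt_d9
  have hi : (0:ℝ) ≤ i := by positivity
  unfold SS PP
  nlinarith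

lemma YY_ge_two (i : ℕ) : 2 ≤ YY i := by
  unfold YY
  have : (2:ℝ)^1 ≤ 2^(2^i) := pow_le_pow_right₀ (by norm_num) Nat.one_le_two_pow
  linarith

lemma PP_le_YY {i p : ℕ} (hp : p ∈ PP i) : (p:ℝ) ≤ YY i := by
  rw [mem_PP] at hp
  unfold YY
  exact_mod_cast hp.2.1.le

lemma card_PP (i : ℕ) : ((PP i).card : ℝ) + 1 ≤ YY i := by
  have h1 := card_le_card (oddPrimes_subset (2^(2^i)))
  rw [Nat.card_Icc] at h1
  have h3 : 1 ≤ 2^(2^i) := Nat.one_le_two_pow
  have h2 : (PP i).card + 1 ≤ 2^(2^i) := by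
    have h4 : 2 ≤ 2^(2^i) := by
      calc 2 = 2^1 := rfl
        _ ≤ 2^(2^i) := Nat.pow_le_pow_right (by norm_num) Nat.one_le_two_pow
    unfold PP
    omega
  unfold YY
  exact_mod_cast h2

lemma exp_le_YY (i : ℕ) : Real.exp ((rr i : ℝ) + 1) ≤ YY i ^ (2 * rr i) := by
  have h1 : (2:ℝ)^(2 * rr i) ≤ YY i ^ (2 * rr i) :=
    pow_le_pow_left₀ (by norm_num) (YY_ge_two i) _
  refine le_trans ?_ h1
  have h2 : (2:ℝ)^(2 * rr i) = Real.exp (Real.log 2 * (2 * rr i)) := by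
    rw [← Real.exp_log (show (0:ℝ) < 2^(2 * rr i) by positivity), Real.log_pow]
    push_cast; ring_nf
  rw [h2, Real.exp_le_exp]
  have h3 := Real.log_two_gt_d9
  have h4 : (200:ℝ) ≤ rr i := by
    unfold rr; push_cast
    have : (0:ℝ) ≤ i := by positivity
    linarith
  nlinarith

lemma inv_YY_le (i : ℕ) : 1 ≤ th i * YY i ^ (2 * rr i) := by
  have h := exp_le_YY i
  unfold th
  rw [Real.exp_neg, ← div_eq_inv_mul, le_div_iff₀ (Real.exp_pos _)]
  linarith

lemma th_le_exp (i : ℕ) : th i ≤ Real.exp (-(2 * SS i)) := by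
  unfold th
  rw [Real.exp_le_exp]
  have h := SS_le i
  have : (rr i : ℝ) = 100 * (i + 2) := by unfold rr; push_cast; ring
  rw [this]
  have hi : (0:ℝ) ≤ i := by positivity
  linarith

/-- the tail of the sieve -/
lemma tail_le (i : ℕ) (s : ℝ) (hs0 : 0 ≤ s) (hs : s ≤ 3 * SS i) :
    s^(rr i + 1) / ((rr i + 1).factorial : ℝ) ≤ th i := by
  have h7 : Real.exp 2 ≤ 7.4 := by
    have h8 : Real.exp 2 = Real.exp 1 * Real.exp 1 := by rw [← Real.exp_add]; norm_num
    have h9 := Real.exp_one_lt_d9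
    have h10 := Real.exp_pos 1
    rw [h8]; nlinarith
  have h1 : s ≤ 3 * (4 + 3 * i) := by
    have := SS_le i
    linarith
  have h2 : (rr i : ℝ) = 100 * (i + 2) := by unfold rr; push_cast; ring
  have hi : (0:ℝ) ≤ i := by positivity
  have h := tail_bound s hs0 (rr i + 1) (by
    push_cast
    rw [h2]
    have h3 : Real.exp 2 * s ≤ 7.4 * s := mul_le_mul_of_nonneg_right h7 hs0
    linarith)
  push_cast at h
  exact h

lemma sum_inv_sq_PP (i : ℕ) : ∑ p ∈ PP i, 1/(p:ℝ)^2 ≤ 1 := sum_inv_sq_oddPrimes _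

/-- lower bound for the sum of reciprocals -/
lemma exp_SS_le (i : ℕ) : Real.exp (-SS i) ≤ 8 / 2^i := by
  have hN : 2 ≤ 2^(2^i) := by
    calc 2 = 2^1 := rfl
      _ ≤ 2^(2^i) := Nat.pow_le_pow_right (by norm_num) Nat.one_le_two_pow
  have hlog : Real.log ((2^(2^i) : ℕ) : ℝ) = 2^i * Real.log 2 := by
    push_cast; rw [Real.log_pow]; push_cast; ring
  have hl2 := Real.log_two_gt_d9
  have h3 : ∏ p ∈ PP i, (1 - 1/(p:ℝ)) ≤ 2 / Real.log ((2^(2^i) : ℕ) : ℝ) ∨ i = 0 := by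
    rcases Nat.eq_zero_or_pos i with h0 | h0
    · right; exact h0
    left
    have h4 := prod_primes_le (2^(2^i)) hN
    have h5 : 2 ∈ (2^(2^i)).primesBelow := by
      rw [Nat.mem_primesBelow]
      refine ⟨?_, Nat.prime_two⟩
      calc 2 = 2^1 := rfl
        _ < 2^(2^i) := Nat.pow_lt_pow_right (by norm_num) (Nat.one_lt_two_pow (by omega))
    rw [← mul_prod_erase _ _ h5] at h4
    change (1 - 1/((2:ℕ):ℝ)) * ∏ p ∈ PP i, (1 - 1/(p:ℝ)) ≤ _ at h4
    have e : (2:ℝ) / Real.log ((2^(2^i) : ℕ) : ℝ) = 2 * (1 / Real.log ((2^(2^i) : ℕ) : ℝ)) := by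
      ring
    rw [e]
    have e2 : (1 - 1/((2:ℕ):ℝ)) = 1/2 := by norm_num
    rw [e2] at h4
    linarith
  rcases h3 with h3 | h3
  swap
  · subst h3
    have : Real.exp (-SS 0) ≤ 1 := by
      rw [Real.exp_le_one_iff]
      have := SS_nonneg 0
      linarith
    norm_num
    linarith
  have h6 : Real.exp (-SS i - 1) ≤ ∏ p ∈ PP i, (1 - 1/(p:ℝ)) := by
    have h7 : Real.exp (-SS i - 1) ≤ Real.exp (∑ p ∈ PP i, (-(1/(p:ℝ)) - 1/(p:ℝ)^2)) := by
      rw [Real.exp_le_exp, sum_sub_distrib, sum_neg_distrib]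
      have := sum_inv_sq_PP i
      unfold SS
      linarith
    refine h7.trans ?_
    rw [Real.exp_sum]
    refine prod_le_prod (fun p _ => (Real.exp_pos _).le) fun p hp => ?_
    have hp3 : (3:ℝ) ≤ p := by exact_mod_cast PP_ge hp
    have hx0 : (0:ℝ) < 1/(p:ℝ) := by positivity
    have hx1 : 1/(p:ℝ) ≤ 1/3 := one_div_le_one_div_of_le (by norm_num) hp3
    set x := 1/(p:ℝ) with hx
    have e3 : 1/(p:ℝ)^2 = x^2 := by rw [hx]; ring
    rw [e3]
    -- exp(-x-x^2) ≤ 1 - x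
    have h8 : 1 ≤ (1 - x) * Real.exp (x + x^2) := by
      have h9 := Real.add_one_le_exp (x + x^2)
      have h10 : (1 - x) * (x + x^2 + 1) ≤ (1 - x) * Real.exp (x + x^2) :=
        mul_le_mul_of_nonneg_left h9 (by linarith)
      have h11 : (1 - x) * (x + x^2 + 1) = 1 - x^3 := by ring
      have h12 := Real.quadratic_le_exp_of_nonneg (show 0 ≤ x + x^2 by positivity)
      have h13 : (1 - x) * (1 + (x + x^2) + (x + x^2)^2/2) ≤ (1 - x) * Real.exp (x + x^2) :=
        mul_le_mul_of_nonneg_left h12 (by linarith)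
      have h14 : 1 ≤ (1 - x) * (1 + (x + x^2) + (x + x^2)^2/2) := by
        have : (1 - x) * (1 + (x + x^2) + (x + x^2)^2/2) =
          1 + x^2 * (1/2 - x/2 - x^2/2 - x^3/2) := by ring
        rw [this]
        have : 0 ≤ 1/2 - x/2 - x^2/2 - x^3/2 := by nlinarith [pow_pos hx0 2, pow_pos hx0 3]
        have := mul_nonneg (sq_nonneg x) this
        linarith
      linarith
    have h9 : -x - x^2 = -(x + x^2) := by ring
    rw [h9, Real.exp_neg, inv_le_iff_one_le_mul₀ (Real.exp_pos _)]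
    linarith
  have h7 : Real.exp (-SS i) = Real.exp (-SS i - 1) * Real.exp 1 := by
    rw [← Real.exp_add]; congr 1; ring
  rw [h7]
  have h8 := Real.exp_one_lt_d9
  have h9 : 0 < Real.exp (-SS i - 1) := Real.exp_pos _
  rw [hlog] at h3
  have h2i : (0:ℝ) < 2^i := by positivity
  calc Real.exp (-SS i - 1) * Real.exp 1 ≤ (2 / (2^i * Real.log 2)) * 2.72 := by
        apply mul_le_mul (h6.trans h3) (by linarith) (Real.exp_pos 1).le (by positivity)
    _ ≤ 8 / 2^i := by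
        rw [div_mul_eq_mul_div, div_le_div_iff₀ (by positivity) h2i]
        nlinarith

lemma SS_ge (i : ℕ) : ((i:ℝ) - 3) * Real.log 2 ≤ SS i := by
  have h := exp_SS_le i
  have h1 : Real.log (Real.exp (-SS i)) ≤ Real.log (8 / 2^i) :=
    Real.log_le_log (Real.exp_pos _) h
  rw [Real.log_exp, Real.log_div (by norm_num) (by positivity), Real.log_pow] at h1
  have h2 : Real.log 8 = 3 * Real.log 2 := by
    have : (8:ℝ) = 2^3 := by norm_num
    rw [this, Real.log_pow]; norm_num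
  rw [h2] at h1
  linarith

/-! ### one-variable sieve -/

open Classical in
lemma count_dvd_Ioc (D : Finset ℕ) (hD : ∀ p ∈ D, p.Prime) (M H : ℕ) :
    |(((Ioc M (M+H)).filter (fun a => ∀ p ∈ D, p ∣ a)).card : ℝ) -
      (H:ℝ) * ∏ p ∈ D, (1/(p:ℝ))| ≤ 1 := by
  set Q := ∏ p ∈ D, p with hQ
  have hQ0 : 0 < Q := prod_pos fun p hp => (hD p hp).pos
  have hdvd : ∀ a, (∀ p ∈ D, p ∣ a) ↔ Q ∣ a := by
    intro a
    constructor
    · intro h
      exact Finset.prod_primes_dvd a (fun p hp => (hD p hp).prime) h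
    · intro h p hp
      exact (dvd_prod_of_mem _ hp).trans h
  have h1 : (Ioc M (M+H)).filter (fun a => ∀ p ∈ D, p ∣ a) =
      (Ioc M (M+H)).filter (fun a => Q ∣ a) := by
    ext a; rw [mem_filter, mem_filter, hdvd]
  have h2 : ((Ioc M (M+H)).filter (fun a => Q ∣ a)).card + M / Q = (M+H)/Q := by
    rw [← Nat.Ioc_filter_dvd_card_eq_div M Q, ← Nat.Ioc_filter_dvd_card_eq_div (M+H) Q,
      ← card_union_of_disjoint]
    · congr 1
      ext a
      rw [mem_union, mem_filter, mem_filter, mem_filter, mem_Ioc, mem_Ioc, mem_Ioc]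
      constructor
      · rintro (h | h)
        · exact ⟨by omega, h.2⟩
        · exact ⟨by omega, h.2⟩
      · rintro ⟨h, h'⟩
        rcases Nat.lt_or_ge M a with h3 | h3
        · left; exact ⟨by omega, h'⟩
        · right; exact ⟨by omega, h'⟩
    · rw [disjoint_left]
      intro a ha hb
      rw [mem_filter, mem_Ioc] at ha hb
      omega
  have hQ' : (0:ℝ) < Q := by exact_mod_cast hQ0
  have h3 : ∏ p ∈ D, (1/(p:ℝ)) = 1 / Q := by
    rw [hQ, prod_div_distrib, prod_const_one]; push_cast; rfl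
  have h4 : (((Ioc M (M+H)).filter (fun a => Q ∣ a)).card : ℝ) =
      (((M+H)/Q : ℕ) : ℝ) - ((M/Q : ℕ) : ℝ) := by
    have : (((Ioc M (M+H)).filter (fun a => Q ∣ a)).card : ℝ) + ((M/Q : ℕ) : ℝ) =
      (((M+H)/Q : ℕ) : ℝ) := by exact_mod_cast h2
    linarith
  rw [h1, h3, h4]
  have f1 : (((M+H)/Q : ℕ) : ℝ) ≤ ((M+H : ℕ) : ℝ) / Q := Nat.cast_div_le
  have f2 : ((M/Q : ℕ) : ℝ) ≤ (M : ℝ) / Q := Nat.cast_div_le
  have f3 : ((M+H : ℕ) : ℝ) / Q < (((M+H)/Q : ℕ) : ℝ) + 1 := by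
    rw [div_lt_iff₀ hQ']
    have := Nat.lt_mul_div_succ (M+H) hQ0
    have h5 : ((M+H : ℕ):ℝ) < ((Q * ((M+H)/Q + 1) : ℕ) : ℝ) := by exact_mod_cast this
    push_cast at h5 ⊢
    linarith
  have f4 : (M : ℝ) / Q < ((M/Q : ℕ) : ℝ) + 1 := by
    rw [div_lt_iff₀ hQ']
    have := Nat.lt_mul_div_succ M hQ0
    have h5 : ((M : ℕ):ℝ) < ((Q * (M/Q + 1) : ℕ) : ℝ) := by exact_mod_cast this
    push_cast at h5 ⊢
    linarith
  have f5 : ((M+H : ℕ) : ℝ) / Q = (M:ℝ)/Q + H * (1/Q) := by push_cast; ring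
  rw [f5] at f1 f3
  rw [abs_le]
  constructor <;> linarith

/-- the product over `T` -/
noncomputable def PiT (T : Finset ℕ) : ℝ := ∏ p ∈ T, (1 - 1/(p:ℝ))

lemma PiT_bounds {i : ℕ} {T : Finset ℕ} (hT : T ⊆ PP i) : 0 ≤ PiT T ∧ PiT T ≤ 1 := by
  have h : ∀ p ∈ T, 0 ≤ 1 - 1/(p:ℝ) ∧ 1 - 1/(p:ℝ) ≤ 1 := by
    intro p hp
    have hp3 : (3:ℝ) ≤ p := by exact_mod_cast PP_ge (hT hp)
    have hx0 : (0:ℝ) < 1/(p:ℝ) := by positivity
    have hx1 : 1/(p:ℝ) ≤ 1/3 := one_div_le_one_div_of_le (by norm_num) hp3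
    constructor <;> linarith
  exact ⟨prod_nonneg fun p hp => (h p hp).1, prod_le_one (fun p hp => (h p hp).1)
    (fun p hp => (h p hp).2)⟩

open Classical in
lemma one_dim (i : ℕ) (T : Finset ℕ) (hT : T ⊆ PP i) (M H : ℕ) (hH : YY i ^ (3 * rr i) ≤ H) :
    (((Ioc M (M+H)).filter (fun a => ∀ p ∈ T, ¬ p ∣ a)).card : ℝ) ≤
      H * (PiT T + 2 * th i) := by
  have hTp : ∀ p ∈ T, p.Prime := fun p hp => (mem_PP.mp (hT hp)).2.2
  have h := brun (Ioc M (M+H)) T (fun p a => p ∣ a) (fun p => 1/(p:ℝ))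
    (fun p hp => by
      have hp3 : (3:ℝ) ≤ p := by exact_mod_cast PP_ge (hT hp)
      refine ⟨by positivity, ?_⟩
      rw [div_le_one (by linarith)]; linarith) (rr i) (rr_even i) H 1 (by positivity)
    (by norm_num) (fun D hD _ => by
      convert count_dvd_Ioc D (fun p hp => hTp p (hD hp)) M H)
  have h' : (((Ioc M (M+H)).filter (fun a => ∀ p ∈ T, ¬ p ∣ a)).card : ℝ) ≤
      H * (∏ p ∈ T, (1 - 1/(p:ℝ)) + (∑ p ∈ T, 1/(p:ℝ))^(rr i+1) / ((rr i+1).factorial : ℝ)) +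
        ((T.card : ℝ) + 1)^(rr i) * 1 := by
    convert h
  refine h'.trans ?_
  have hs0 : 0 ≤ ∑ p ∈ T, 1/(p:ℝ) := sum_nonneg fun p _ => by positivity
  have hs : ∑ p ∈ T, 1/(p:ℝ) ≤ 3 * SS i := by
    have h1 : ∑ p ∈ T, 1/(p:ℝ) ≤ SS i :=
      sum_le_sum_of_subset_of_nonneg hT (fun p _ _ => by positivity)
    have := SS_nonneg i
    linarith
  have h2 := tail_le i _ hs0 hs
  have h3 : ((T.card : ℝ) + 1)^(rr i) ≤ YY i ^ rr i := by
    apply pow_le_pow_left₀ (by positivity)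
    have h4 := card_PP i
    have h5 : (T.card : ℝ) ≤ (PP i).card := by exact_mod_cast card_le_card hT
    linarith
  have hY0 : 0 < YY i := by have := YY_ge_two i; linarith
  have h4 : YY i ^ rr i ≤ H * th i := by
    have h5 := inv_YY_le i
    have h6 : YY i ^ rr i ≤ YY i ^ (3 * rr i) * th i := by
      have e : YY i ^ (3 * rr i) = YY i ^ rr i * YY i ^ (2 * rr i) := by
        have e1 : rr i + 2 * rr i = 3 * rr i := by ring
        rw [← pow_add, e1]
      rw [e]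
      have h7 : 0 ≤ YY i ^ rr i := pow_nonneg hY0.le _
      have := mul_le_mul_of_nonneg_left h5 h7
      calc YY i ^ rr i = YY i ^ rr i * 1 := (mul_one _).symm
        _ ≤ YY i ^ rr i * (th i * YY i ^ (2 * rr i)) := this
        _ = YY i ^ rr i * YY i ^ (2 * rr i) * th i := by ring
    exact h6.trans (mul_le_mul_of_nonneg_right hH (th_pos i).le)
  have hH0 : (0:ℝ) ≤ H := by positivity
  have h5 := mul_le_mul_of_nonneg_left h2 hH0
  unfold PiT
  linarith

/-! ### typical integers -/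

open Classical in
/-- the number of primes of `PP i` dividing `n` -/
noncomputable def om (i n : ℕ) : ℕ := ((PP i).filter (fun p => p ∣ n)).card

open Classical in
lemma sum_pow_om (i X : ℕ) :
    ∑ n ∈ Ioc 0 X, ((5:ℝ)/4)^(om i n) ≤ X * Real.exp (SS i / 4) := by
  have h1 : ∀ n, ((5:ℝ)/4)^(om i n) =
      ∑ D ∈ (PP i).powerset, (if ∀ p ∈ D, p ∣ n then ((1:ℝ)/4)^D.card else 0) := by
    intro n
    have e1 : ((5:ℝ)/4)^(om i n) = ∏ p ∈ PP i, (1 + (if p ∣ n then (1:ℝ)/4 else 0)) := by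
      unfold om
      have : ∀ p ∈ PP i, (1 + (if p ∣ n then (1:ℝ)/4 else 0)) = if p ∣ n then (5:ℝ)/4 else 1 := by
        intro p _; split_ifs <;> norm_num
      rw [prod_congr rfl this, prod_ite, prod_const, prod_const_one, mul_one]
    rw [e1, prod_one_add]
    refine sum_congr rfl fun D _ => ?_
    split_ifs with h
    · rw [prod_congr rfl (fun p hp => if_pos (h p hp)), prod_const]
    · push Not at h
      obtain ⟨p, hp, hpn⟩ := h
      exact prod_eq_zero hp (if_neg hpn)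
  simp only [h1]
  rw [sum_comm]
  have h2 : ∀ D ∈ (PP i).powerset, ∑ n ∈ Ioc 0 X, (if ∀ p ∈ D, p ∣ n then ((1:ℝ)/4)^D.card else 0)
      ≤ X * ∏ p ∈ D, ((1:ℝ)/4 * (1/p)) := by
    intro D hD
    rw [mem_powerset] at hD
    have hDp : ∀ p ∈ D, p.Prime := fun p hp => (mem_PP.mp (hD hp)).2.2
    set Q := ∏ p ∈ D, p with hQ
    have hQ0 : 0 < Q := prod_pos fun p hp => (hDp p hp).pos
    have e2 : ∑ n ∈ Ioc 0 X, (if ∀ p ∈ D, p ∣ n then ((1:ℝ)/4)^D.card else 0) =
        ((X / Q : ℕ) : ℝ) * ((1:ℝ)/4)^D.card := by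
      rw [← sum_filter, sum_const, nsmul_eq_mul]
      congr 2
      rw [← Nat.Ioc_filter_dvd_card_eq_div X Q]
      congr 1
      ext a
      rw [mem_filter, mem_filter]
      refine and_congr_right fun _ => ?_
      constructor
      · intro h
        exact Finset.prod_primes_dvd a (fun p hp => (hDp p hp).prime) h
      · intro h p hp
        exact (dvd_prod_of_mem _ hp).trans h
    rw [e2, prod_mul_distrib, prod_const]
    have e3 : ∏ p ∈ D, (1/(p:ℝ)) = 1 / Q := by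
      rw [hQ, prod_div_distrib, prod_const_one]; push_cast; rfl
    rw [e3]
    have f1 : ((X/Q : ℕ) : ℝ) ≤ (X : ℝ) / Q := Nat.cast_div_le
    have f2 : (0:ℝ) ≤ (1/4)^D.card := by positivity
    calc ((X / Q : ℕ) : ℝ) * ((1:ℝ)/4)^D.card ≤ (X:ℝ)/Q * ((1:ℝ)/4)^D.card :=
          mul_le_mul_of_nonneg_right f1 f2
      _ = X * ((1/4)^D.card * (1/Q)) := by ring
  refine (sum_le_sum h2).trans ?_
  rw [← mul_sum, ← prod_one_add]
  apply mul_le_mul_of_nonneg_left _ (by positivity)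
  have h3 : SS i / 4 = ∑ p ∈ PP i, (1:ℝ)/4 * (1/p) := by
    unfold SS; rw [← mul_sum]; ring
  rw [h3, Real.exp_sum]
  refine prod_le_prod (fun p _ => by positivity) fun p _ => ?_
  have := Real.add_one_le_exp ((1:ℝ)/4 * (1/p))
  linarith

lemma log_five_four : (2:ℝ)/9 ≤ Real.log (5/4) := by
  have h := Real.le_log_one_add_of_nonneg (show (0:ℝ) ≤ 1/4 by norm_num)
  have e : (1:ℝ) + 1/4 = 5/4 := by norm_num
  rw [e] at h
  refine le_trans ?_ h
  norm_num

open Classical in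
/-- atypical integers are rare -/
lemma atypical (i X : ℕ) :
    (((Ioc 0 X).filter (fun n => 5/4 * SS i < om i n)).card : ℝ) ≤
      X * Real.exp (-(SS i / 40)) := by
  set A := (Ioc 0 X).filter (fun n => 5/4 * SS i < om i n) with hA
  set c : ℝ := Real.exp (Real.log (5/4) * (5/4 * SS i)) with hc
  have hc0 : 0 < c := Real.exp_pos _
  have h1 : (A.card : ℝ) * c ≤ ∑ n ∈ Ioc 0 X, ((5:ℝ)/4)^(om i n) := by
    calc (A.card : ℝ) * c = ∑ n ∈ A, c := by rw [sum_const, nsmul_eq_mul]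
      _ ≤ ∑ n ∈ A, ((5:ℝ)/4)^(om i n) := by
          refine sum_le_sum fun n hn => ?_
          rw [hA, mem_filter] at hn
          have e : ((5:ℝ)/4)^(om i n) = Real.exp (Real.log (5/4) * (om i n)) := by
            rw [← Real.exp_log (show (0:ℝ) < (5/4)^(om i n) by positivity), Real.log_pow]
            ring_nf
          rw [e, hc, Real.exp_le_exp]
          have := log_five_four
          apply mul_le_mul_of_nonneg_left hn.2.le (by linarith)
      _ ≤ ∑ n ∈ Ioc 0 X, ((5:ℝ)/4)^(om i n) := by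
          apply sum_le_sum_of_subset_of_nonneg (filter_subset _ _)
          intro n _ _; positivity
  have h2 := h1.trans (sum_pow_om i X)
  have h3 : (A.card : ℝ) ≤ X * Real.exp (SS i / 4) / c := by
    rw [le_div_iff₀ hc0]; exact h2
  refine h3.trans ?_
  rw [mul_div_assoc, hc, ← Real.exp_sub]
  apply mul_le_mul_of_nonneg_left _ (by positivity)
  rw [Real.exp_le_exp]
  have h4 := log_five_four
  have h5 := SS_nonneg i
  have h6 : 5/18 * SS i ≤ Real.log (5/4) * (5/4 * SS i) := by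
    have := mul_le_mul_of_nonneg_right h4 (show 0 ≤ 5/4 * SS i by positivity)
    linarith
  linarith

/-! ### random subsets -/

open Classical in
lemma half_pow (P : Finset ℕ) (C : ℕ → Prop) :
    ((1:ℝ)/2)^((P.filter C).card) =
      ((1:ℝ)/2)^P.card * ∑ T ∈ P.powerset, (if ∀ p ∈ T, ¬ C p then (1:ℝ) else 0) := by
  rw [sum_boole]
  have h1 : P.powerset.filter (fun T => ∀ p ∈ T, ¬ C p) =
      (P.filter (fun p => ¬ C p)).powerset := by
    ext T
    rw [mem_filter, mem_powerset, mem_powerset]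
    constructor
    · rintro ⟨h, h'⟩ p hp
      rw [mem_filter]; exact ⟨h hp, h' p hp⟩
    · intro h
      exact ⟨fun p hp => (mem_filter.mp (h hp)).1, fun p hp => (mem_filter.mp (h hp)).2⟩
  rw [h1, card_powerset]
  have h2 := card_filter_add_card_filter_not (s := P) C
  rw [← h2, pow_add]
  push_cast
  rw [mul_assoc, ← mul_pow]
  norm_num

/-- average of a product over random subsets -/
lemma avg_prod (P : Finset ℕ) (f g : ℕ → ℝ) :
    ((1:ℝ)/2)^P.card * ∑ T ∈ P.powerset, (∏ p ∈ T, f p) * ∏ p ∈ P \ T, g p =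
      ∏ p ∈ P, ((f p + g p)/2) := by
  rw [← prod_add]
  have : ∀ p ∈ P, (f p + g p)/2 = 1/2 * (f p + g p) := fun p _ => by ring
  rw [prod_congr rfl this, prod_mul_distrib, prod_const]

end Pool.Agent.H70.SymDes
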