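import Mathlib
import Pool.Agent.H12.Joint

/-!
General two-variable joint count and sieve bound (after `Pool.Agent.H12.Joint`).
-/

namespace Pool.Agent.H70.SymDes

open Finset Classical Pool.Agent.H12

/-- joint count for events which depend periodically on `t` with a number of bad residues
depending periodically on `z` -/
lemma joint_count_gen (a S : ℕ) (D : Finset ℕ) (hD : ∀ p ∈ D, p.Prime)
    (Ev : ℕ → ℕ → ℕ → Prop) (β : ℕ → ℕ → ℝ)
    (hβ0 : ∀ p ∈ D, ∀ z, 0 ≤ β p z) (hβmod : ∀ p ∈ D, ∀ z, β p (z % p^2) = β p z)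
    (hmod : ∀ p ∈ D, ∀ z t, Ev p z (t % p^2) ↔ Ev p z t)
    (hsum : ∀ p ∈ D, ∀ z, z < a → ∑ t ∈ range (p^2), (if Ev p z t then (1:ℝ) else 0) = β p z)
    (hN : ∀ p ∈ D, ∑ z ∈ range (p^2), β p z ≤ (p:ℝ)^4) :
    |(((range a ×ˢ range S).filter (fun ω : ℕ × ℕ => ∀ p ∈ D, Ev p ω.1 ω.2)).card : ℝ) -
      ((a:ℝ) * S) * ∏ p ∈ D, ((∑ z ∈ range (p^2), β p z) / (p:ℝ)^4)| ≤
    ((a:ℝ) + S) * ((∏ p ∈ D, p^2 : ℕ) : ℝ) + ((∏ p ∈ D, p^2 : ℕ) : ℝ)^2 := by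
  set Q := ∏ p ∈ D, p^2 with hQ
  have hQ0 : 0 < Q := prod_pos fun p hp => pow_pos (hD p hp).pos 2
  have hQ' : (0:ℝ) < Q := by exact_mod_cast hQ0
  set B : ℕ → ℝ := fun z => ∏ p ∈ D, β p z with hB
  set NN := ∏ p ∈ D, (∑ z ∈ range (p^2), β p z) with hNN
  have hB0 : ∀ z, 0 ≤ B z := fun z => prod_nonneg fun p hp => hβ0 p hp z
  have hBper : ∀ z, B (z % Q) = B z := by
    intro z
    refine prod_congr rfl fun p hp => ?_
    rw [← hβmod p hp z, ← hβmod p hp (z % Q)]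
    congr 1
    exact Nat.mod_mod_of_dvd z (Finset.dvd_prod_of_mem (fun p => p^2) hp)
  have hBsum : ∑ z ∈ range Q, B z = NN := by
    rw [hQ]
    exact crt_prod D hD (fun p z => β p z) (fun p hp z => hβmod p hp z)
  have h1 := per_avg Q hQ0 B hBper hB0 a
  rw [hBsum] at h1
  have hNN0 : 0 ≤ NN := prod_nonneg fun p hp => sum_nonneg fun z _ => hβ0 p hp z
  -- inner sum
  have h2 : ∀ z ∈ range a, |((range S).filter (fun t =>
      ∀ p ∈ D, Ev p z t)).card - (S:ℝ)/Q * B z| ≤ B z := by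
    intro z hz
    rw [mem_range] at hz
    set F : ℕ → ℝ := fun t => ∏ p ∈ D, (if Ev p z t then (1:ℝ) else 0) with hF
    have hF0 : ∀ t, 0 ≤ F t := fun t => prod_nonneg fun p _ => by split_ifs <;> norm_num
    have hFper : ∀ t, F (t % Q) = F t := by
      intro t
      refine prod_congr rfl fun p hp => ?_
      have e1 : t % Q % p^2 = t % p^2 :=
        Nat.mod_mod_of_dvd t (Finset.dvd_prod_of_mem (fun p => p^2) hp)
      have e2 : Ev p z (t % Q) ↔ Ev p z t := by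
        rw [← hmod p hp z (t % Q), e1, hmod p hp]
      simp only [e2]
    have hFsum : ∑ t ∈ range Q, F t = B z := by
      rw [hQ, hB]
      simp only [hF]
      rw [crt_prod D hD (fun p t => if Ev p z t then (1:ℝ) else 0)]
      · exact prod_congr rfl fun p hp => hsum p hp z hz
      · intro p hp t
        simp only [hmod p hp]
    have h3 := per_avg Q hQ0 F hFper hF0 S
    rw [hFsum] at h3
    have h4 : (((range S).filter (fun t => ∀ p ∈ D, Ev p z t)).card : ℝ) =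
        ∑ t ∈ range S, F t := by
      rw [← sum_boole (R := ℝ)]
      refine sum_congr rfl fun t _ => ?_
      simp only [hF]
      split_ifs with hc
      · exact (prod_eq_one fun p hp => if_pos (hc p hp)).symm
      · push Not at hc
        obtain ⟨p, hp, hpe⟩ := hc
        exact (prod_eq_zero hp (if_neg hpe)).symm
    rw [h4]; exact h3
  -- total
  have h3 : (((range a ×ˢ range S).filter (fun ω : ℕ × ℕ =>
      ∀ p ∈ D, Ev p ω.1 ω.2)).card : ℝ) =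
      ∑ z ∈ range a, (((range S).filter (fun t => ∀ p ∈ D, Ev p z t)).card : ℝ) := by
    rw [← sum_boole (R := ℝ), sum_product]
    refine sum_congr rfl fun z _ => ?_
    rw [← sum_boole (R := ℝ)]
  rw [h3]
  have h4 : |∑ z ∈ range a, (((range S).filter (fun t =>
        ∀ p ∈ D, Ev p z t)).card : ℝ) - (S:ℝ)/Q * ∑ z ∈ range a, B z| ≤
        ∑ z ∈ range a, B z := by
    rw [mul_sum, ← sum_sub_distrib]
    exact (abs_sum_le_sum_abs _ _).trans (sum_le_sum h2)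
  have h5 : ((a:ℝ) * S) * ∏ p ∈ D, ((∑ z ∈ range (p^2), β p z) / (p:ℝ)^4) =
      (S:ℝ)/Q * ((a:ℝ)/Q * NN) := by
    have : ∏ p ∈ D, ((∑ z ∈ range (p^2), β p z) / (p:ℝ)^4) = NN / (Q:ℝ)^2 := by
      rw [prod_div_distrib, hNN, hQ]
      congr 1
      push_cast
      rw [← prod_pow]
      refine prod_congr rfl fun p _ => ?_
      ring
    rw [this]; field_simp
  have hNQ : NN ≤ (Q:ℝ)^2 := by
    have : (Q:ℝ)^2 = ∏ p ∈ D, (p:ℝ)^4 := by
      rw [hQ]; push_cast; rw [← prod_pow]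
      refine prod_congr rfl fun p _ => ?_
      ring
    rw [this, hNN]
    exact prod_le_prod (fun p hp => sum_nonneg fun z _ => hβ0 p hp z) fun p hp => hN p hp
  rw [abs_le] at h1 h4
  have hsq : 0 ≤ (S:ℝ)/Q := by positivity
  have hm1 := mul_le_mul_of_nonneg_left h1.1 hsq
  have hm2 := mul_le_mul_of_nonneg_left h1.2 hsq
  have hfin : ((a:ℝ)/Q + 1 + S/Q) * NN ≤ ((a:ℝ) + S) * Q + (Q:ℝ)^2 := by
    have : ((a:ℝ)/Q + 1 + S/Q) * NN ≤ ((a:ℝ)/Q + 1 + S/Q) * (Q:ℝ)^2 :=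
      mul_le_mul_of_nonneg_left hNQ (by positivity)
    refine this.trans (le_of_eq ?_)
    field_simp
    ring
  rw [h5, abs_le]
  constructor
  · nlinarith [h4.1, h4.2, hm1, hm2, h1.1, h1.2, hfin]
  · nlinarith [h4.1, h4.2, hm1, hm2, h1.1, h1.2, hfin]

/-- the sieve bound for general events -/
theorem sieve_bound_gen (a S : ℕ) (P : Finset ℕ) (hP : ∀ p ∈ P, p.Prime)
    (Ev : ℕ → ℕ → ℕ → Prop) (β : ℕ → ℕ → ℝ)
    (hβ0 : ∀ p ∈ P, ∀ z, 0 ≤ β p z) (hβmod : ∀ p ∈ P, ∀ z, β p (z % p^2) = β p z)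
    (hmod : ∀ p ∈ P, ∀ z t, Ev p z (t % p^2) ↔ Ev p z t)
    (hsum : ∀ p ∈ P, ∀ z, z < a → ∑ t ∈ range (p^2), (if Ev p z t then (1:ℝ) else 0) = β p z)
    (hN : ∀ p ∈ P, ∑ z ∈ range (p^2), β p z ≤ (p:ℝ)^4)
    (r : ℕ) (hr : Even r)
    (Y : ℝ) (hY : ∀ p ∈ P, (p:ℝ) ≤ Y) (hPY : (P.card : ℝ) + 1 ≤ Y) (hY1 : 1 ≤ Y) :
    (((range a ×ˢ range S).filter (fun ω : ℕ × ℕ =>
      ∀ p ∈ P, ¬ Ev p ω.1 ω.2)).card : ℝ) ≤
    ((a:ℝ) * S) * (∏ p ∈ P, (1 - (∑ z ∈ range (p^2), β p z) / (p:ℝ)^4) +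
      (∑ p ∈ P, (∑ z ∈ range (p^2), β p z) / (p:ℝ)^4)^(r+1) / ((r+1).factorial : ℝ)) +
      (((a:ℝ) + S) * Y^(3*r) + Y^(5*r)) := by
  have hY0 : (0:ℝ) ≤ Y := by linarith
  have h := brun (range a ×ˢ range S) P
    (fun p ω => Ev p ω.1 ω.2) (fun p => (∑ z ∈ range (p^2), β p z) / (p:ℝ)^4)
    (fun p hp => ⟨div_nonneg (sum_nonneg fun z _ => hβ0 p hp z) (by positivity), by
      have : (0:ℝ) < (p:ℝ)^4 := by
        have : (0:ℝ) < p := by exact_mod_cast (hP p hp).pos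
        positivity
      rw [div_le_one this]; exact hN p hp⟩) r hr ((a:ℝ) * S)
    (((a:ℝ) + S) * Y^(2*r) + Y^(4*r)) (by positivity) (by positivity) ?_
  · refine h.trans ?_
    have : ((P.card : ℝ) + 1)^r ≤ Y^r := pow_le_pow_left₀ (by positivity) hPY r
    have h2 := mul_le_mul_of_nonneg_right this
      (show (0:ℝ) ≤ ((a:ℝ) + S) * Y^(2*r) + Y^(4*r) by positivity)
    have e1 : Y^(3*r) = Y^r * Y^(2*r) := by rw [← pow_add]; congr 1; ring
    have e2 : Y^(5*r) = Y^r * Y^(4*r) := by rw [← pow_add]; congr 1; ring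
    rw [e1, e2]
    linarith
  · intro D hD hDr
    have h1 := joint_count_gen a S D (fun p hp => hP p (hD hp)) Ev β
      (fun p hp => hβ0 p (hD hp)) (fun p hp => hβmod p (hD hp)) (fun p hp => hmod p (hD hp))
      (fun p hp => hsum p (hD hp)) (fun p hp => hN p (hD hp))
    refine h1.trans ?_
    have hQ : ((∏ p ∈ D, p^2 : ℕ) : ℝ) ≤ Y^(2*r) := by
      push_cast
      calc ∏ p ∈ D, (p:ℝ)^2 ≤ ∏ p ∈ D, Y^2 :=
            prod_le_prod (fun p _ => by positivity) (fun p hp =>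
              pow_le_pow_left₀ (by positivity) (hY p (hD hp)) 2)
        _ = (Y^2)^D.card := by rw [prod_const]
        _ ≤ (Y^2)^r := pow_le_pow_right₀ (by nlinarith) hDr
        _ = Y^(2*r) := by rw [← pow_mul]
    have hQ2 : ((∏ p ∈ D, p^2 : ℕ) : ℝ)^2 ≤ Y^(4*r) := by
      calc ((∏ p ∈ D, p^2 : ℕ) : ℝ)^2 ≤ (Y^(2*r))^2 := pow_le_pow_left₀ (by positivity) hQ 2
        _ = Y^(4*r) := by rw [← pow_mul]; congr 1; ring
    have := mul_le_mul_of_nonneg_left hQ (show (0:ℝ) ≤ (a:ℝ) + S by positivity)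
    linarith

/-- the bad event of helper12, together with `p ∣ b` for the primes `p` of `T` -/
def EvT (T : Finset ℕ) (a : ℕ) (e : ℤ) (p z x0 v0 b0 t : ℕ) : Prop :=
  Bad a e p z x0 v0 t ∨ (p ∈ T ∧ ¬ p ∣ a ∧ ¬ p ∣ z ∧ p ∣ a * t + b0)

/-- number of bad `t` mod `p^2` -/
noncomputable def betaT (T : Finset ℕ) (a : ℕ) (e : ℤ) (p z : ℕ) : ℝ :=
  beta a e p z + (if p ∈ T ∧ ¬ p ∣ a ∧ ¬ p ∣ z then (p:ℝ) else 0)

lemma betaT_nonneg (T : Finset ℕ) (a : ℕ) (e : ℤ) (p z : ℕ) (hp : p.Prime) :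
    0 ≤ betaT T a e p z := by
  unfold betaT
  have := beta_nonneg a e p z hp
  split_ifs <;> positivity

lemma betaT_mod (T : Finset ℕ) (a : ℕ) (e : ℤ) (p z : ℕ) :
    betaT T a e p (z % p^2) = betaT T a e p z := by
  unfold betaT
  rw [beta_mod]
  simp only [(mod_facts p z).1]

lemma EvT_mod (T : Finset ℕ) (a : ℕ) (e : ℤ) (p z x0 v0 b0 t : ℕ) :
    EvT T a e p z x0 v0 b0 (t % p^2) ↔ EvT T a e p z x0 v0 b0 t := by
  unfold EvT
  rw [bad_mod]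
  have h4 : a * (t % p^2) + b0 ≡ a * t + b0 [MOD p^2] :=
    ((Nat.mod_modEq t (p^2)).mul_left _).add_right _
  have h6 := h4.of_dvd (Dvd.intro_left (p^1) rfl : p ∣ p^2)
  rw [h6.dvd_iff dvd_rfl]

lemma card_dvd_affine (p a b0 : ℕ) (hp : p.Prime) (hpa : ¬ p ∣ a) :
    ((range (p^2)).filter (fun t => p ∣ a * t + b0)).card = p := by
  have hcop : Nat.Coprime a (p^2) :=
    (Nat.Coprime.pow_left 2 ((Nat.Prime.coprime_iff_not_dvd hp).mpr hpa)).symm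
  have h2 := card_affine (p^2) a b0 (pow_pos hp.pos 2) hcop (fun w => p ∣ w)
  rw [card_dvd p hp] at h2
  refine Eq.trans ?_ h2
  congr 1
  ext t
  rw [mem_filter, mem_filter, (mod_facts p (a*t+b0)).1]

lemma sum_EvT (T : Finset ℕ) (a : ℕ) (e : ℤ) (he : e = 1 ∨ e = -1) (p z x0 v0 b0 : ℕ)
    (hp : p.Prime) (hz : z < a)
    (hdis : ¬ p ∣ a → ∀ t, ¬ (p ∣ (a - z) * t + x0 ∧ p ∣ a * t + b0)) :
    ∑ t ∈ range (p^2), (if EvT T a e p z x0 v0 b0 t then (1:ℝ) else 0) = betaT T a e p z := by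
  have h1 : ∀ t, (if EvT T a e p z x0 v0 b0 t then (1:ℝ) else 0) =
      (if Bad a e p z x0 v0 t then (1:ℝ) else 0) +
      (if (p ∈ T ∧ ¬ p ∣ a ∧ ¬ p ∣ z ∧ p ∣ a * t + b0) then (1:ℝ) else 0) := by
    intro t
    unfold EvT
    by_cases hb : Bad a e p z x0 v0 t
    · by_cases hc : (p ∈ T ∧ ¬ p ∣ a ∧ ¬ p ∣ z ∧ p ∣ a * t + b0)
      · exfalso
        obtain ⟨-, ha, hz', ht⟩ := hc
        rcases hb with h | h | h
        · exact ha h.1
        · exact hz' h.2.1.1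
        · exact hdis ha t ⟨h.2.2.1, ht⟩
      · rw [if_pos (Or.inl hb), if_pos hb, if_neg hc, add_zero]
    · by_cases hc : (p ∈ T ∧ ¬ p ∣ a ∧ ¬ p ∣ z ∧ p ∣ a * t + b0)
      · rw [if_pos (Or.inr hc), if_neg hb, if_pos hc, zero_add]
      · rw [if_neg (by rintro (h | h); exacts [hb h, hc h]), if_neg hb, if_neg hc, add_zero]
  simp only [h1]
  rw [sum_add_distrib, sum_bad a e he p z x0 v0 hp hz]
  unfold betaT
  congr 1
  by_cases hc : p ∈ T ∧ ¬ p ∣ a ∧ ¬ p ∣ z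
  · rw [if_pos hc]
    have h2 : ∀ t, (if (p ∈ T ∧ ¬ p ∣ a ∧ ¬ p ∣ z ∧ p ∣ a * t + b0) then (1:ℝ) else 0) =
        (if p ∣ a * t + b0 then (1:ℝ) else 0) := by
      intro t
      by_cases h : p ∣ a * t + b0
      · rw [if_pos ⟨hc.1, hc.2.1, hc.2.2, h⟩, if_pos h]
      · rw [if_neg (fun h' => h h'.2.2.2), if_neg h]
    simp only [h2]
    rw [sum_boole, card_dvd_affine p a b0 hp hc.2.1]
  · rw [if_neg hc]
    apply sum_eq_zero
    intro t _
    rw [if_neg (fun h => hc ⟨h.1, h.2.1, h.2.2.1⟩)]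

/-- density of the event -/
noncomputable def densT (T : Finset ℕ) (a : ℕ) (e : ℤ) (p : ℕ) : ℝ :=
  (∑ z ∈ range (p^2), betaT T a e p z) / (p:ℝ)^4

lemma sum_betaT (T : Finset ℕ) (a : ℕ) (e : ℤ) (p : ℕ) (hp : p.Prime) :
    ∑ z ∈ range (p^2), betaT T a e p z =
      Nbad a e p + (if p ∈ T ∧ ¬ p ∣ a then (p:ℝ) * ((p:ℝ)^2 - p) else 0) := by
  unfold betaT Nbad
  rw [sum_add_distrib]
  congr 1
  by_cases hc : p ∈ T ∧ ¬ p ∣ a
  · rw [if_pos hc]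
    have h2 : ∀ z, (if (p ∈ T ∧ ¬ p ∣ a ∧ ¬ p ∣ z) then (p:ℝ) else 0) =
        p * (1 - (if p ∣ z then (1:ℝ) else 0)) := by
      intro z
      by_cases h : p ∣ z
      · rw [if_neg (fun h' => h'.2.2 h), if_pos h]; ring
      · rw [if_pos ⟨hc.1, hc.2, h⟩, if_neg h]; ring
    simp only [h2]
    rw [← mul_sum, sum_sub_distrib, sum_boole, card_dvd p hp]
    simp
  · rw [if_neg hc]
    apply sum_eq_zero
    intro t _
    rw [if_neg (fun h => hc ⟨h.1, h.2.1⟩)]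

/-- lower bound for the density, for `a` coprime to the primes of `T` -/
noncomputable def low (T : Finset ℕ) (p : ℕ) : ℝ :=
  if p ∈ T then 2/(p:ℝ) - 4/(p:ℝ)^2 else 1/(p:ℝ) - 3/(p:ℝ)^2

lemma densT_bounds (T : Finset ℕ) (a : ℕ) (e : ℤ) (he : e = 1 ∨ e = -1) (p : ℕ)
    (hp : p.Prime) (h2 : p ≠ 2) (ha : p ∈ T → ¬ p ∣ a) :
    ∑ z ∈ range (p^2), betaT T a e p z ≤ (p:ℝ)^4 ∧ 0 ≤ densT T a e p ∧
    densT T a e p ≤ 3 / p ∧ low T p ≤ densT T a e p := by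
  have hp3 : 3 ≤ p := by
    have := hp.two_le
    omega
  have hp3' : (3:ℝ) ≤ p := by exact_mod_cast hp3
  have hp0 : (0:ℝ) < p := by linarith
  obtain ⟨h1, h3⟩ := Nbad_bounds a e he p hp h2
  have h5 : (0:ℝ) ≤ (p:ℝ) * ((p:ℝ)^2 - p) := by
    have : (0:ℝ) ≤ (p:ℝ)^2 - p := by nlinarith
    positivity
  have h6 : ∑ z ∈ range (p^2), betaT T a e p z ≤ 3 * (p:ℝ)^3 := by
    rw [sum_betaT T a e p hp]
    have : (p:ℝ) * ((p:ℝ)^2 - p) ≤ (p:ℝ)^3 := by nlinarith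
    split_ifs
    · linarith
    · have : (0:ℝ) ≤ (p:ℝ)^3 := by positivity
      linarith
  have h7 : 0 ≤ ∑ z ∈ range (p^2), betaT T a e p z :=
    sum_nonneg fun z _ => betaT_nonneg T a e p z hp
  refine ⟨h6.trans ?_, div_nonneg h7 (by positivity), ?_, ?_⟩
  · have : (p:ℝ)^4 = p * (p:ℝ)^3 := by ring
    rw [this]
    exact mul_le_mul_of_nonneg_right hp3' (by positivity)
  · unfold densT
    rw [div_le_div_iff₀ (by positivity) (by positivity)]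
    have : 3 * (p:ℝ)^4 = 3 * (p:ℝ)^3 * p := by ring
    rw [this]
    exact mul_le_mul_of_nonneg_right h6 (by positivity)
  · unfold densT low
    rw [le_div_iff₀ (by positivity), sum_betaT T a e p hp]
    by_cases hT : p ∈ T
    · rw [if_pos hT, if_pos ⟨hT, ha hT⟩]
      have : (2/(p:ℝ) - 4/(p:ℝ)^2) * (p:ℝ)^4 = 2*(p:ℝ)^3 - 4 * (p:ℝ)^2 := by
        field_simp
      rw [this]; nlinarith
    · rw [if_neg hT, if_neg (fun h => hT h.1), add_zero]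
      have : (1/(p:ℝ) - 3/(p:ℝ)^2) * (p:ℝ)^4 = (p:ℝ)^3 - 3 * (p:ℝ)^2 := by
        field_simp
      rw [this]; nlinarith

end Pool.Agent.H70.SymDes
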