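import Mathlib
import Pool.Agent.H12.Defs

/-!
Definitions for the density theorem on orders of symmetric designs
(`SymmetricDesignExists v k l` is defined in `Pool.Agent.H12.Defs`).
-/

namespace Pool.Agent.H70.SymDes

open Pool.Agent.H12

/-- `k-1` or `k` is the fraction `s^2/(s^2+t^2)` of `v-1` for some coprime positive `s,t` with
`s^2+t^2 ≤ A` -/
def SquareRatio (A v k : ℕ) : Prop :=
  ∃ s t : ℕ, 0 < s ∧ 0 < t ∧ Nat.Coprime s t ∧ s^2 + t^2 ≤ A ∧
    ((k-1) * (s^2+t^2) = s^2 * (v-1) ∨ k * (s^2+t^2) = s^2 * (v-1))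

/-- The numbers `v ≤ X` with `v` not congruent to `3` mod `4` for which there is a symmetric
`(v,k,l)`-design with `1 < k < v - 1`. -/
def nontrivialOrders (X : ℕ) : Set ℕ :=
  {v | v ≤ X ∧ v % 4 ≠ 3 ∧ ∃ k l, 1 < k ∧ k + 1 < v ∧ SymmetricDesignExists v k l}

/-- The numbers `v ≤ X` for which there is a symmetric `(v,k,l)`-design with `1 < k < v - 1`
such that not both `v` is congruent to `3` mod `4` and `SquareRatio A v k` holds. -/
def exceptionalOrders (A X : ℕ) : Set ℕ :=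
  {v | v ≤ X ∧ ∃ k l, 1 < k ∧ k + 1 < v ∧ SymmetricDesignExists v k l ∧
    ¬ (v % 4 = 3 ∧ SquareRatio A v k)}

end Pool.Agent.H70.SymDes
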