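import Mathlib
import Pool.Agent.H12.NoBad
import Pool.Agent.H12.FixedLambda
import Pool.Agent.H70.SymDes.Defs

/-!
From a design to a representation of `v` without bad events, with explicit sign.
-/

namespace Pool.Agent.H70.SymDes

open Finset Classical Pool.Agent.H12

/-- the sign -/
def e0 (v : ℕ) : ℤ := if v % 4 = 3 then -1 else 1

lemma e0_or (v : ℕ) : e0 v = 1 ∨ e0 v = -1 := by
  unfold e0; split_ifs <;> simp

lemma brc_sign {v k l : ℕ} (h : SymmetricDesignExists v k l) (hl : l < k) (p : ℕ)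
    [hp : Fact p.Prime] (h1 : p ∣ k - l) (h2 : ¬ p^2 ∣ k - l) :
    IsSquare (((e0 v : ℤ) : ZMod p) * (l : ZMod p)) := by
  obtain ⟨hv, h3⟩ := brc_local h hl p h1 h2
  have e : (-1:ℤ)^((v-1)/2) = e0 v := by
    unfold e0
    split_ifs with h4
    · have : Odd ((v-1)/2) := by rw [Nat.odd_iff]; omega
      rw [this.neg_one_pow]
    · have : Even ((v-1)/2) := by rw [Nat.even_iff]; omega
      rw [this.neg_one_pow]
  rw [e] at h3
  push_cast at h3
  exact h3

lemma no_bad' {v k l : ℕ} (h : Admissible v k l) (hd : SymmetricDesignExists v k l)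
    (hb1 : Nat.gcd (k-1) (v-1) ≠ 1) :
    ∃ z, 0 < z ∧ z < Nat.gcd k (v-1) ∧ Nat.Coprime z (Nat.gcd k (v-1)) ∧
      Nat.gcd (k-1) (v-1) % Nat.gcd k (v-1) = b0 (Nat.gcd k (v-1)) z ∧
      v = Nat.gcd k (v-1) * Nat.gcd (k-1) (v-1) + 1 ∧
      k = Nat.gcd (k-1) (v-1) * (Nat.gcd k (v-1) - z) + 1 ∧
      k - l = ((Nat.gcd k (v-1) - z) * (Nat.gcd (k-1) (v-1) / Nat.gcd k (v-1)) +
        xx0 (Nat.gcd k (v-1)) z) * z ∧
      ∀ p : ℕ, p.Prime →
        ¬ Bad (Nat.gcd k (v-1)) (e0 v) p z (xx0 (Nat.gcd k (v-1)) z)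
          (vv0 (Nat.gcd k (v-1)) z) (Nat.gcd (k-1) (v-1) / Nat.gcd k (v-1)) := by
  obtain ⟨x, y, hab, hcop, ha2, hkx, hky, hl, hx0, hy0, hya⟩ := admissible_facts h
  set a := Nat.gcd k (v-1) with ha
  set b := Nat.gcd (k-1) (v-1) with hb
  have hk := h.1
  have hkv := h.2.2.1
  have hcnt := h.2.2.2
  obtain ⟨z, hz⟩ : ∃ z, a = y + z := ⟨a - y, by omega⟩
  have hz0 : 0 < z := by omega
  have hv : v = a * b + 1 := by omega
  have hk1 : a * x = b * y + 1 := by rw [← hkx, ← hky]
  have hb0 : 0 < b := by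
    rcases Nat.eq_zero_or_pos b with h0 | h0
    · rw [h0] at hv; simp at hv; omega
    · exact h0
  have hxb : x < b := by
    by_contra hcon
    push Not at hcon
    have e1 : a * b ≤ a * x := Nat.mul_le_mul_left a hcon
    have e2 : b * y + 1 ≤ b * a := by
      have e3 : b * (y+1) ≤ b * a := Nat.mul_le_mul_left b hya
      nlinarith
    have e3 : a * x = a * b := by
      have : a * b = b * a := mul_comm a b
      omega
    have e4 : b * (a - y) = 1 := by
      have e5 : a - y = z := by omega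
      rw [e5]
      have : b * a = b * y + b * z := by rw [hz]; ring
      have : a * b = b * a := mul_comm a b
      omega
    exact hb1 (Nat.eq_one_of_mul_eq_one_right e4)
  obtain ⟨w, hw⟩ : ∃ w, b = x + w := ⟨b - x, by omega⟩
  have hvk : v - k = b * z := by
    rw [hv, hky]
    have : a * b = b * y + b * z := by rw [hz]; ring
    omega
  have hvk' : v - k = a * w + 1 := by
    rw [hv, hkx]
    have : a * b = a * x + a * w := by rw [hw]; ring
    omega
  have e4 : a * w + 1 = b * z := by rw [← hvk', hvk]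
  have hl' : v + l - 2 * k = z * w := by
    have e1 : v + l = 2 * k + z * w := by
      have e2 : v = a * x + a * w + 1 := by rw [hv, hw]; ring
      have e3 : k = a * x := hkx
      rw [e2, hl, e3]
      have e5 : a * x + a * w + 1 + x * y = a * x + (a * w + 1) + x * y := by ring
      rw [e5, e4, hw, hz]; ring
    omega
  have hxz : x * z = y * w + 1 := by
    have e5 : (y + z) * x = (x + w) * y + 1 := by rw [← hz, ← hw]; exact hk1
    nlinarith
  have hn : k - l = x * z := by
    rw [hl, hkx, hz]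
    have : (y + z) * x = x * y + x * z := by ring
    rw [this]; simp
  have hbz : b * z ≡ 1 [MOD a] := by
    rw [← e4]
    have : a * w + 1 ≡ 0 + 1 [MOD a] := Nat.ModEq.add_right 1 (by simp [Nat.ModEq])
    rw [zero_add] at this; exact this
  have hzc : Nat.Coprime z a := by
    have h2 : Nat.gcd (b*z) a = 1 := by
      rw [hbz.gcd_eq]; simp
    exact Nat.Coprime.coprime_mul_left h2
  have hb0' := b0_eq (by omega) hbz
  have hdm : b = a * (b / a) + b0 a z := by
    rw [← hb0']; exact (Nat.div_add_mod b a).symm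
  set t := b / a with ht
  have hay : a - z = y := by omega
  -- x = y t + xx0
  have hx : y * t + xx0 a z = x := by
    have e5 : a * x = a * (y * t) + (b0 a z * y + 1) := by
      rw [hk1]; nth_rewrite 1 [hdm]; ring
    have e6 : y * t ≤ x := by
      have : a * (y * t) ≤ a * x := by omega
      exact Nat.le_of_mul_le_mul_left this (by omega)
    have e7 : b0 a z * y + 1 = a * (x - y * t) := by
      rw [Nat.mul_sub]; omega
    unfold xx0
    rw [hay, e7, Nat.mul_div_cancel_left _ (by omega : 0 < a)]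
    omega
  have hvv : a^2 * t + vv0 a z = a * b + 1 := by
    unfold vv0
    calc a^2 * t + (a * b0 a z + 1) = a * (a * t + b0 a z) + 1 := by ring
      _ = a * b + 1 := by rw [← hdm]
  refine ⟨z, hz0, by omega, hzc, hb0', hv, by rw [hay]; exact hky, by rw [hay, hx]; exact hn,
    fun p hp hbad => ?_⟩
  have : Fact p.Prime := ⟨hp⟩
  rcases hbad with ⟨h1, h2⟩ | ⟨h1, ⟨h2, h2'⟩, h3⟩ | ⟨h1, h2, h3, h3'⟩
  · have h4 : p ∣ a * w + 1 := by rw [e4]; exact Dvd.dvd.mul_left h2 b
    have h5 : p ∣ a * w := Dvd.dvd.mul_right h1 w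
    have h6 : p ∣ 1 := (Nat.dvd_add_right h5).mp h4
    exact hp.one_lt.ne' (Nat.dvd_one.mp h6)
  · apply h3
    have e9 : ((a:ZMod p)^2 * t + vv0 a z) = ((a * b + 1 : ℕ) : ZMod p) := by
      rw [← hvv]; push_cast; ring
    rw [e9]
    -- l = v mod p
    have hzz : ((z:ℕ) : ZMod p) = 0 := by rwa [ZMod.natCast_eq_zero_iff]
    have hay' : (a : ZMod p) = y := by
      rw [hz]; push_cast; rw [hzz, add_zero]
    have hk2 : (a : ZMod p) * x = b * y + 1 := by
      have := congrArg (Nat.cast : ℕ → ZMod p) hk1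
      push_cast at this
      exact this
    have hvl : ((a * b + 1 : ℕ) : ZMod p) = l := by
      rw [hl]; push_cast
      calc (a : ZMod p) * b + 1 = b * y + 1 := by rw [hay']; ring
        _ = a * x := hk2.symm
        _ = x * y := by rw [hay']; ring
    rw [hvl]
    by_cases hpx : p ∣ x
    · have : (l : ZMod p) = 0 := by
        rw [ZMod.natCast_eq_zero_iff, hl]
        exact Dvd.dvd.mul_right hpx y
      rw [this, mul_zero]
      exact IsSquare.zero
    · have g1 : p ∣ k - l := by rw [hn]; exact Dvd.dvd.mul_left h2 x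
      have g2 : ¬ p^2 ∣ k - l := by
        rw [hn]
        intro g3
        have g4 : Nat.Coprime (p^2) x := Nat.Coprime.pow_left 2
          ((Nat.Prime.coprime_iff_not_dvd hp).mpr hpx)
        exact h2' (g4.dvd_of_dvd_mul_left g3)
      have hlk : l < k := by
        by_contra hcon
        have : k - l = 0 := by omega
        rw [this] at g2
        exact g2 (dvd_zero _)
      exact brc_sign hd hlk p g1 g2
  · apply h2
    rw [hay, hx] at h3 h3'
    have hxx : ((x:ℕ) : ZMod p) = 0 := by rwa [ZMod.natCast_eq_zero_iff]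
    have hyw : (y : ZMod p) * w = -1 := by
      have := congrArg (Nat.cast : ℕ → ZMod p) hxz
      push_cast at this
      rw [hxx, zero_mul] at this
      linear_combination -this
    have haz : (a : ZMod p) - z = y := by
      rw [hz]; push_cast; ring
    have key : IsSquare (((e0 v : ℤ) : ZMod p) * (z * w)) := by
      by_cases hpz : p ∣ z
      · have : ((z:ℕ) : ZMod p) = 0 := by rwa [ZMod.natCast_eq_zero_iff]
        rw [this, zero_mul, mul_zero]; exact IsSquare.zero
      · have hd' := compl_design hd hk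
        rw [hl', hvk] at hd'
        have hn' : b * z - z * w = x * z := by
          rw [hw]
          have : (x + w) * z = x * z + z * w := by ring
          rw [this]; simp
        have g1 : p ∣ b * z - z * w := by rw [hn']; exact Dvd.dvd.mul_right h3 z
        have g2 : ¬ p^2 ∣ b * z - z * w := by
          rw [hn']
          intro g3
          have g4 : Nat.Coprime (p^2) z := Nat.Coprime.pow_left 2
            ((Nat.Prime.coprime_iff_not_dvd hp).mpr hpz)
          exact h3' (g4.dvd_of_dvd_mul_right g3)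
        have hlk : z * w < b * z := by
          by_contra hcon
          have : b * z - z * w = 0 := by omega
          rw [this] at g2
          exact g2 (dvd_zero _)
        have g3 := brc_sign hd' hlk p g1 g2
        push_cast at g3 ⊢
        exact g3
    rw [haz]
    obtain ⟨s, hs⟩ := key
    refine ⟨s * y, ?_⟩
    have : s * y * (s * y) = (s * s) * (y * y) := by ring
    rw [this, ← hs]
    linear_combination (-((e0 v : ℤ) : ZMod p) * z * y) * hyw

/-- `v` is represented by `(a,z,t)` with sign `e` and no bad event -/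
structure Rep (v a z t : ℕ) (e : ℤ) : Prop where
  ha : 2 ≤ a
  hz0 : 0 < z
  hz : z < a
  hc : Nat.Coprime z a
  hv : v = a * (a * t + b0 a z) + 1
  hb : a < a * t + b0 a z
  he : e = 1 ∨ e = -1
  hbad : ∀ p : ℕ, p.Prime → ¬ Bad a e p z (xx0 a z) (vv0 a z) t

lemma rep_of_lt {v k l : ℕ} (h : Admissible v k l) (hd : SymmetricDesignExists v k l)
    (hlt : Nat.gcd k (v-1) < Nat.gcd (k-1) (v-1)) :
    ∃ a z t, Rep v a z t (e0 v) ∧ (k-1) * a = (a - z) * (v-1) ∧
      k - l = ((a - z) * t + xx0 a z) * z := by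
  obtain ⟨x, y, hab, hcop, ha2, hkx, hky, hl, hx0, hy0, hya⟩ := admissible_facts h
  obtain ⟨z, hz0, hz, hc, hb0, hv, hsq, hn, hbad⟩ := no_bad' h hd (by omega)
  set a := Nat.gcd k (v-1) with ha
  set b := Nat.gcd (k-1) (v-1) with hb
  have hdm : a * (b / a) + b0 a z = b := by
    rw [← hb0]; exact Nat.div_add_mod b a
  refine ⟨a, z, b / a, ⟨ha2, hz0, hz, hc, ?_, ?_, e0_or v, hbad⟩, ?_, hn⟩
  · rw [hdm]; exact hv
  · rw [hdm]; exact hlt
  · have e1 : k - 1 = b * (a - z) := by omega
    have e2 : v - 1 = a * b := by omega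
    rw [e1, e2]; ring

lemma exists_rep {v k l : ℕ} (hk : 1 < k) (hkv : k + 1 < v) (hd : SymmetricDesignExists v k l) :
    ∃ a z t, Rep v a z t (e0 v) ∧ ((k-1) * a = (a - z) * (v-1) ∨ k * a = z * (v-1)) ∧
      k - l = ((a - z) * t + xx0 a z) * z := by
  obtain ⟨hlk, hcnt⟩ := design_lt (by omega) hd
  have hl0 : 0 < l := by
    rcases Nat.eq_zero_or_pos l with h0 | h0
    · exfalso
      rw [h0, zero_mul] at hcnt
      have : 0 < k * (k-1) := Nat.mul_pos (by omega) (by omega)
      omega
    · exact h0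
  have h : Admissible v k l := ⟨by omega, hl0, by omega, hcnt⟩
  obtain ⟨x, y, hab, hcop, ha2, hkx, hky, hl, hx0, hy0, hya⟩ := admissible_facts h
  have hb1 : Nat.gcd (k-1) (v-1) ≠ 1 := by
    intro h1
    rw [h1, mul_one] at hab
    have h2 : v - 1 ∣ k := by
      have := Nat.gcd_dvd_left k (v-1)
      rwa [hab] at this
    have := Nat.le_of_dvd (by omega) h2
    omega
  rcases lt_trichotomy (Nat.gcd k (v-1)) (Nat.gcd (k-1) (v-1)) with h1 | h1 | h1
  · obtain ⟨a, z, t, hrep, hr, hn⟩ := rep_of_lt h hd h1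
    exact ⟨a, z, t, hrep, Or.inl hr, hn⟩
  · exfalso
    rw [h1, Nat.coprime_self] at hcop
    exact hb1 hcop
  · have hcf := comp_facts (t := (v, k, l)) h hb1
    obtain ⟨c1, c2, c3⟩ := hcf
    unfold comp at c1 c2 c3
    unfold aOf bOf at c2 c3
    simp only at c1 c2 c3
    have hd' := compl_design hd (by omega)
    obtain ⟨a, z, t, hrep, hr, hn⟩ := rep_of_lt c1 hd' (by rw [c2, c3]; exact h1)
    have hn' : v - k - (v + l - 2 * k) = k - l := by
      have := c1.2.1
      omega
    refine ⟨a, z, t, hrep, Or.inr ?_, by rw [← hn']; exact hn⟩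
    have hz := hrep.hz
    obtain ⟨y', hy'⟩ : ∃ y', a = y' + z := ⟨a - z, by omega⟩
    have e1 : a - z = y' := by omega
    rw [e1] at hr
    obtain ⟨m, hm⟩ : ∃ m, v - 1 = m + k := ⟨v - 1 - k, by omega⟩
    have e2 : v - k - 1 = m := by omega
    rw [e2, hm] at hr
    rw [hm]
    have e3 : m * a + k * a = y' * (m + k) + z * (m + k) := by
      calc m * a + k * a = (m + k) * a := by ring
        _ = y' * (m + k) + z * (m + k) := by rw [hy']; ring
    omega

/-- a representation with sign `-1` and `(a-z) z` a square gives a square ratio -/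
lemma squareRatio_of_rep {v k a z t A : ℕ} (hrep : Rep v a z t (e0 v)) (haA : a ≤ A)
    (hr : (k-1) * a = (a - z) * (v-1) ∨ k * a = z * (v-1))
    (hsq : IsSquare ((a - z) * z)) : SquareRatio A v k := by
  have hz := hrep.hz
  have hz0 := hrep.hz0
  obtain ⟨c, hc⟩ := hsq
  have hcop : Nat.Coprime (a - z) z := by
    have h1 : Nat.Coprime a z := hrep.hc.symm
    have h2 : a = (a - z) + z := by omega
    rw [h2] at h1
    simpa using h1
  obtain ⟨s, hs⟩ := exists_eq_pow_of_mul_eq_pow (k := 2) (a := a - z) (b := z) (c := c)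
    (by rw [Nat.isUnit_iff]; exact hcop) (by rw [hc, sq])
  obtain ⟨u, hu⟩ := exists_eq_pow_of_mul_eq_pow (k := 2) (a := z) (b := a - z) (c := c)
    (by rw [Nat.isUnit_iff]; exact hcop.symm) (by rw [mul_comm, hc, sq])
  have hs0 : 0 < s := by
    apply Nat.pos_of_ne_zero
    rintro rfl
    simp at hs; omega
  have hu0 : 0 < u := by
    apply Nat.pos_of_ne_zero
    rintro rfl
    simp at hu; omega
  have ha : a = s^2 + u^2 := by omega
  have hcop2 : Nat.Coprime s u := by
    rw [hs, hu] at hcop
    exact (Nat.coprime_pow_left_iff (by norm_num) _ _).mp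
      ((Nat.coprime_pow_right_iff (by norm_num) _ _).mp hcop)
  rcases hr with hr | hr
  · refine ⟨s, u, hs0, hu0, hcop2, by omega, Or.inl ?_⟩
    rw [← ha, ← hs]; exact hr
  · refine ⟨u, s, hu0, hs0, hcop2.symm, by omega, Or.inr ?_⟩
    rw [add_comm (u^2), ← ha, ← hu]; exact hr

end Pool.Agent.H70.SymDes
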