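import Mathlib
import Pool.Agent.H70.SymDes.Joint
import Pool.Agent.H70.SymDes.Scale
import Pool.Agent.H70.SymDes.Rep

/-!
The middle range.
-/

namespace Pool.Agent.H70.SymDes

open Finset Classical Pool.Agent.H12

lemma a_mul_xx0 {a z : ℕ} (ha : 2 ≤ a) (hz : z < a) (hc : Nat.Coprime z a) :
    a * xx0 a z = b0 a z * (a - z) + 1 := by
  have hex : ∃ c, c < a ∧ (c * z) % a = 1 % a := by
    obtain ⟨m, hm, hm'⟩ := Nat.exists_mul_mod_eq_one_of_coprime hc (by omega : 1 < a)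
    refine ⟨m, hm, ?_⟩
    rw [mul_comm, hm', Nat.mod_eq_of_lt (by omega)]
  have hb : b0 a z < a ∧ (b0 a z * z) % a = 1 % a := by
    unfold b0
    rw [dif_pos hex]
    exact Nat.find_spec hex
  have hdvd : a ∣ b0 a z * (a - z) + 1 := by
    have h1 : b0 a z * (a - z) + 1 + (b0 a z * z) ≡ 0 + (b0 a z * z) [MOD a] := by
      have e1 : b0 a z * (a - z) + 1 + (b0 a z * z) = b0 a z * a + 1 := by
        have h3 : a - z + z = a := by omega
        calc b0 a z * (a - z) + 1 + (b0 a z * z) = b0 a z * (a - z + z) + 1 := by ring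
          _ = b0 a z * a + 1 := by rw [h3]
      rw [e1, zero_add]
      have h2 : b0 a z * a + 1 ≡ 0 + 1 [MOD a] := Nat.ModEq.add_right 1 (by simp [Nat.ModEq])
      rw [zero_add] at h2
      exact h2.trans hb.2.symm
    have h2 := Nat.ModEq.add_right_cancel' _ h1
    exact (Nat.modEq_zero_iff_dvd).mp h2
  unfold xx0
  exact Nat.mul_div_cancel' hdvd

/-- the pairs `(z,t)` without bad events at the primes of `PP i` -/
noncomputable def Gd (i X a : ℕ) (e : ℤ) : Finset (ℕ × ℕ) :=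
  (range a ×ˢ range (X/a^2+1)).filter (fun ω : ℕ × ℕ => Nat.Coprime ω.1 a ∧
    ∀ p ∈ PP i, ¬ Bad a e p ω.1 (xx0 a ω.1) (vv0 a ω.1) ω.2)

/-- the number of primes of `PP i` dividing `a b` -/
noncomputable def oab (i a z t : ℕ) : ℕ :=
  ((PP i).filter (fun p => p ∣ a ∨ p ∣ a * t + b0 a z)).card

/-- the product in the sieve -/
noncomputable def GG (i : ℕ) (T : Finset ℕ) : ℝ := ∏ p ∈ PP i, (1 - low T p)

lemma low_facts (T : Finset ℕ) (p : ℕ) (hp : 3 ≤ p) : 0 ≤ low T p ∧ low T p ≤ 1 := by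
  have hp3 : (3:ℝ) ≤ p := by exact_mod_cast hp
  have hp0 : (0:ℝ) < p := by linarith
  have hx0 : (0:ℝ) < 1/(p:ℝ) := by positivity
  have hx1 : 1/(p:ℝ) ≤ 1/3 := one_div_le_one_div_of_le (by norm_num) hp3
  set x := 1/(p:ℝ) with hx
  have e1 : 2/(p:ℝ) - 4/(p:ℝ)^2 = 2 * x - 4 * x^2 := by rw [hx]; ring
  have e2 : 1/(p:ℝ) - 3/(p:ℝ)^2 = x - 3 * x^2 := by rw [hx]; ring
  unfold low
  split_ifs
  · rw [e1]; constructor <;> nlinarith
  · rw [e2]; constructor <;> nlinarith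

lemma GG_bounds (i : ℕ) (T : Finset ℕ) : 0 ≤ GG i T ∧ GG i T ≤ 1 := by
  have h : ∀ p ∈ PP i, 0 ≤ 1 - low T p ∧ 1 - low T p ≤ 1 := by
    intro p hp
    have := low_facts T p (PP_ge hp)
    constructor <;> linarith
  exact ⟨prod_nonneg fun p hp => (h p hp).1, prod_le_one (fun p hp => (h p hp).1)
    (fun p hp => (h p hp).2)⟩

lemma sieve_a (i X a : ℕ) (T : Finset ℕ) (e : ℤ) (he : e = 1 ∨ e = -1)
    (ha : 2 ≤ a) (haT : ∀ p ∈ T, ¬ p ∣ a) :
    ∑ ω ∈ Gd i X a e, (if ∀ p ∈ T, ¬ (p ∣ a ∨ p ∣ a * ω.2 + b0 a ω.1) then (1:ℝ) else 0) ≤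
      ((a:ℝ) * ((X/a^2+1 : ℕ) : ℝ)) * (GG i T + th i) +
      (((a:ℝ) + ((X/a^2+1 : ℕ) : ℝ)) * YY i ^ (3 * rr i) + YY i ^ (5 * rr i)) := by
  set S := X/a^2+1 with hS
  set xc : ℕ → ℕ := fun z => if Nat.Coprime z a then xx0 a z else 1 with hxc
  set bc : ℕ → ℕ := fun z => if Nat.Coprime z a then b0 a z else 0 with hbc
  have hPp : ∀ p ∈ PP i, p.Prime := fun p hp => (mem_PP.mp hp).2.2
  have hP2 : ∀ p ∈ PP i, p ≠ 2 := fun p hp => (mem_PP.mp hp).1
  have hdis : ∀ p ∈ PP i, ∀ z, z < a → ¬ p ∣ a → ∀ t,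
      ¬ (p ∣ (a - z) * t + xc z ∧ p ∣ a * t + bc z) := by
    intro p hp z hz hpa t ht
    have hpp := hPp p hp
    by_cases hc : Nat.Coprime z a
    · simp only [hxc, hbc, if_pos hc] at ht
      have h1 := a_mul_xx0 ha hz hc
      have h2 : a * ((a - z) * t + xx0 a z) = (a - z) * (a * t + b0 a z) + 1 := by
        calc a * ((a - z) * t + xx0 a z) = a * (a - z) * t + a * xx0 a z := by ring
          _ = a * (a - z) * t + (b0 a z * (a - z) + 1) := by rw [h1]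
          _ = (a - z) * (a * t + b0 a z) + 1 := by ring
      have h3 : p ∣ (a - z) * (a * t + b0 a z) + 1 := by
        rw [← h2]; exact Dvd.dvd.mul_left ht.1 a
      have h4 : p ∣ 1 := (Nat.dvd_add_right (Dvd.dvd.mul_left ht.2 (a - z))).mp h3
      exact hpp.one_lt.ne' (Nat.dvd_one.mp h4)
    · simp only [hxc, hbc, if_neg hc, add_zero] at ht
      have h1 : p ∣ t := (hpp.dvd_mul.mp ht.2).resolve_left hpa
      have h4 : p ∣ 1 := (Nat.dvd_add_right (Dvd.dvd.mul_left h1 (a - z))).mp ht.1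
      exact hpp.one_lt.ne' (Nat.dvd_one.mp h4)
  have hb := fun p (hp : p ∈ PP i) => densT_bounds T a e he p (hPp p hp) (hP2 p hp)
    (fun h => haT p h)
  have hmain := sieve_bound_gen a S (PP i) hPp
    (fun p z t => EvT T a e p z (xc z) (vv0 a z) (bc z) t) (fun p z => betaT T a e p z)
    (fun p hp z => betaT_nonneg T a e p z (hPp p hp))
    (fun p _ z => betaT_mod T a e p z)
    (fun p _ z t => EvT_mod T a e p z (xc z) (vv0 a z) (bc z) t)
    (fun p hp z hz => sum_EvT T a e he p z (xc z) (vv0 a z) (bc z) (hPp p hp) hz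
      (hdis p hp z hz))
    (fun p hp => (hb p hp).1) (rr i) (rr_even i) (YY i) (fun p hp => PP_le_YY hp) (card_PP i)
    (by have := YY_ge_two i; linarith)
  have h1 : ∑ ω ∈ Gd i X a e, (if ∀ p ∈ T, ¬ (p ∣ a ∨ p ∣ a * ω.2 + b0 a ω.1) then (1:ℝ) else 0) ≤
      (((range a ×ˢ range S).filter (fun ω : ℕ × ℕ =>
        ∀ p ∈ PP i, ¬ EvT T a e p ω.1 (xc ω.1) (vv0 a ω.1) (bc ω.1) ω.2)).card : ℝ) := by
    rw [sum_boole]
    have : (Gd i X a e).filter (fun ω => ∀ p ∈ T, ¬ (p ∣ a ∨ p ∣ a * ω.2 + b0 a ω.1)) ⊆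
        (range a ×ˢ range S).filter (fun ω : ℕ × ℕ =>
        ∀ p ∈ PP i, ¬ EvT T a e p ω.1 (xc ω.1) (vv0 a ω.1) (bc ω.1) ω.2) := by
      intro ω hω
      rw [mem_filter] at hω
      obtain ⟨h2, h3⟩ := hω
      unfold Gd at h2
      rw [mem_filter] at h2
      rw [mem_filter]
      refine ⟨h2.1, fun p hp hev => ?_⟩
      obtain ⟨-, hc, hnb⟩ := h2
      simp only [hxc, hbc, if_pos hc] at hev
      rcases hev with h4 | ⟨h4, h5, h6, h7⟩
      · exact hnb p hp h4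
      · exact h3 p h4 (Or.inr h7)
    exact_mod_cast card_le_card this
  refine h1.trans (hmain.trans ?_)
  have h2 : ∏ p ∈ PP i, (1 - (∑ z ∈ range (p^2), betaT T a e p z) / (p:ℝ)^4) ≤ GG i T := by
    unfold GG
    refine prod_le_prod (fun p hp => ?_) (fun p hp => ?_)
    · have hp0 : (0:ℝ) < (p:ℝ)^4 := by
        have : (0:ℝ) < p := by exact_mod_cast (hPp p hp).pos
        positivity
      have := (div_le_one hp0).mpr (hb p hp).1
      linarith
    · have := (hb p hp).2.2.2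
      unfold densT at this
      linarith
  have hs0 : 0 ≤ ∑ p ∈ PP i, (∑ z ∈ range (p^2), betaT T a e p z) / (p:ℝ)^4 :=
    sum_nonneg fun p hp => (hb p hp).2.1
  have hs : ∑ p ∈ PP i, (∑ z ∈ range (p^2), betaT T a e p z) / (p:ℝ)^4 ≤ 3 * SS i := by
    unfold SS
    rw [mul_sum]
    refine sum_le_sum fun p hp => ?_
    have := (hb p hp).2.2.1
    unfold densT at this
    calc _ ≤ 3 / (p:ℝ) := this
      _ = 3 * (1/p) := by ring
  have h3 := tail_le i _ hs0 hs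
  have h4 : (0:ℝ) ≤ (a:ℝ) * (S:ℝ) := by positivity
  have h5 := mul_le_mul_of_nonneg_left (add_le_add h2 h3) h4
  linarith

/-- the exponent of the scale -/
def bt (i : ℕ) : ℕ := 7 * rr i * 2^i

lemma two_pow_bt (i : ℕ) : ((2^(bt i) : ℕ) : ℝ) = YY i ^ (7 * rr i) := by
  unfold bt YY
  push_cast
  rw [← pow_mul]
  congr 1
  exact Nat.mul_comm _ _

lemma sum_a (i X j : ℕ) (T : Finset ℕ) (hT : T ⊆ PP i) (e : ℤ) (he : e = 1 ∨ e = -1)
    (h1 : bt i ≤ j) (h2 : 2^(2*j+2+bt i) ≤ X) :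
    ∑ a ∈ Ioc (2^j) (2^j+2^j), ∑ ω ∈ Gd i X a e,
      (if ∀ p ∈ T, ¬ (p ∣ a ∨ p ∣ a * ω.2 + b0 a ω.1) then (1:ℝ) else 0) ≤
      2 * X * (PiT T * GG i T) + 13 * X * th i := by
  set M := 2^j with hM
  set B : ℝ := ((2^(bt i) : ℕ) : ℝ) with hB
  have hBY : B = YY i ^ (7 * rr i) := two_pow_bt i
  have hMB : B ≤ M := by
    rw [hB, hM]
    exact_mod_cast Nat.pow_le_pow_right (by norm_num) h1
  have hYY := YY_ge_two i
  have hY0 : 0 < YY i := by linarith
  have hY1 : 1 ≤ YY i := by linarith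
  have hB0 : 0 < B := by rw [hBY]; positivity
  have hB1 : 1 ≤ B := by rw [hBY]; exact one_le_pow₀ hY1
  have hM1 : (1:ℝ) ≤ M := hB1.trans hMB
  have hM0 : (0:ℝ) < M := by linarith
  have hX : 4 * (M:ℝ)^2 * B ≤ X := by
    have : ((2^(2*j+2+bt i) : ℕ) : ℝ) ≤ X := by exact_mod_cast h2
    refine le_trans (le_of_eq ?_) this
    rw [hM, hB]; push_cast
    rw [pow_add, pow_add, pow_mul']; ring
  have hX0 : (0:ℝ) < X := lt_of_lt_of_le (by positivity) hX
  have hth := th_pos i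
  -- terms with a prime of T dividing a vanish
  set R : ℝ := (2 * X / M) * (GG i T + th i) + ((2 * M + X / M^2 + 1) * YY i ^ (3 * rr i) +
    YY i ^ (5 * rr i)) with hR
  have hG := GG_bounds i T
  have hP := PiT_bounds hT
  have hR0 : 0 ≤ R := by
    have : 0 ≤ GG i T + th i := by linarith [hG.1]
    positivity
  have key : ∀ a ∈ Ioc M (M+M), ∑ ω ∈ Gd i X a e,
      (if ∀ p ∈ T, ¬ (p ∣ a ∨ p ∣ a * ω.2 + b0 a ω.1) then (1:ℝ) else 0) ≤
      if ∀ p ∈ T, ¬ p ∣ a then R else 0 := by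
    intro a ha
    rw [mem_Ioc] at ha
    split_ifs with hc
    · have hMN : 1 ≤ M := by exact_mod_cast hM1
      have ha2 : 2 ≤ a := by omega
      refine (sieve_a i X a T e he ha2 hc).trans ?_
      have ha0 : (0:ℝ) < a := by
        have : (2:ℝ) ≤ a := by exact_mod_cast ha2
        linarith
      have haM : (M:ℝ) ≤ a := by exact_mod_cast ha.1.le
      have haM2 : (a:ℝ) ≤ 2 * M := by
        have : (a:ℝ) ≤ ((M+M : ℕ) : ℝ) := by exact_mod_cast ha.2
        push_cast at this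
        linarith
      have hS : ((X/a^2+1 : ℕ) : ℝ) ≤ (X:ℝ) / a^2 + 1 := by
        push_cast
        have h1 : ((X/a^2 : ℕ) : ℝ) ≤ (X:ℝ) / ((a^2 : ℕ) : ℝ) := Nat.cast_div_le
        push_cast at h1
        linarith
      have hS2 : ((X/a^2+1 : ℕ) : ℝ) ≤ (X:ℝ) / M^2 + 1 := by
        refine hS.trans ?_
        have : (X:ℝ) / a^2 ≤ X / M^2 := by
          apply div_le_div_of_nonneg_left hX0.le (by positivity)
          exact pow_le_pow_left₀ hM0.le haM 2
        linarith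
      have h3 : (a:ℝ) * ((X/a^2+1 : ℕ) : ℝ) ≤ 2 * X / M := by
        have e1 : (a:ℝ) * ((X/a^2+1 : ℕ) : ℝ) ≤ X / a + a := by
          calc (a:ℝ) * ((X/a^2+1 : ℕ) : ℝ) ≤ a * ((X:ℝ) / a^2 + 1) :=
                mul_le_mul_of_nonneg_left hS ha0.le
            _ = X / a + a := by field_simp
        have e2 : (X:ℝ) / a ≤ X / M := div_le_div_of_nonneg_left hX0.le hM0 haM
        have e3 : (a:ℝ) ≤ X / M := by
          refine haM2.trans ?_
          rw [le_div_iff₀ hM0]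
          nlinarith
        have e4 : 2 * (X:ℝ) / M = X / M + X / M := by ring
        linarith
      have h4 : 0 ≤ GG i T + th i := by linarith [hG.1]
      have h5 := mul_le_mul_of_nonneg_right h3 h4
      have h6 : ((a:ℝ) + ((X/a^2+1 : ℕ) : ℝ)) * YY i ^ (3 * rr i) ≤
          (2 * M + X / M^2 + 1) * YY i ^ (3 * rr i) := by
        apply mul_le_mul_of_nonneg_right _ (by positivity)
        linarith
      rw [hR]
      linarith
    · apply le_of_eq
      apply sum_eq_zero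
      intro ω _
      rw [if_neg]
      intro h
      push Not at hc
      obtain ⟨p, hp, hpa⟩ := hc
      exact h p hp (Or.inl hpa)
  refine (sum_le_sum key).trans ?_
  rw [← sum_filter, sum_const, nsmul_eq_mul]
  have hcard := one_dim i T hT M M (by
    refine le_trans ?_ hMB
    rw [hBY]
    exact pow_le_pow_right₀ hY1 (by omega))
  have hcard2 : (((Ioc M (M+M)).filter (fun a => ∀ p ∈ T, ¬ p ∣ a)).card : ℝ) ≤ M := by
    have : ((Ioc M (M+M)).filter (fun a => ∀ p ∈ T, ¬ p ∣ a)).card ≤ M := by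
      refine (card_filter_le _ _).trans ?_
      rw [Nat.card_Ioc, Nat.add_sub_cancel]
    exact_mod_cast this
  set N : ℝ := (((Ioc M (M+M)).filter (fun a => ∀ p ∈ T, ¬ p ∣ a)).card : ℝ) with hN
  have hN0 : 0 ≤ N := by positivity
  -- main part
  have m1 : N * ((2 * X / M) * (GG i T + th i)) ≤
      2 * X * (PiT T * GG i T) + 10 * X * th i := by
    have h4 : 0 ≤ (2 * (X:ℝ) / M) * (GG i T + th i) := by
      have : 0 ≤ GG i T + th i := by linarith [hG.1]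
      positivity
    refine (mul_le_mul_of_nonneg_right hcard h4).trans ?_
    have e1 : (M:ℝ) * (PiT T + 2 * th i) * ((2 * X / M) * (GG i T + th i)) =
        2 * X * ((PiT T + 2 * th i) * (GG i T + th i)) := by
      field_simp
    rw [e1]
    have e2 : (PiT T + 2 * th i) * (GG i T + th i) ≤ PiT T * GG i T + 5 * th i := by
      have hth1 := th_le_one i
      have a1 : PiT T * th i ≤ 1 * th i := mul_le_mul_of_nonneg_right hP.2 hth.le
      have a2 : GG i T * th i ≤ 1 * th i := mul_le_mul_of_nonneg_right hG.2 hth.le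
      have a3 : th i * th i ≤ 1 * th i := mul_le_mul_of_nonneg_right hth1 hth.le
      nlinarith
    have := mul_le_mul_of_nonneg_left e2 (show 0 ≤ 2 * (X:ℝ) by positivity)
    linarith
  -- error part
  have m2 : N * ((2 * M + X / M^2 + 1) * YY i ^ (3 * rr i) + YY i ^ (5 * rr i)) ≤
      3 * X * th i := by
    have hpos : 0 ≤ ((2 * M + X / M^2 + 1) * YY i ^ (3 * rr i) + YY i ^ (5 * rr i)) := by
      positivity
    refine (mul_le_mul_of_nonneg_right hcard2 hpos).trans ?_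
    have hp35 : YY i ^ (3 * rr i) ≤ YY i ^ (5 * rr i) := pow_le_pow_right₀ hY1 (by omega)
    have hp5 : 0 < YY i ^ (5 * rr i) := by positivity
    have a0 : 0 ≤ (2 * (M:ℝ) + X / M^2 + 1) := by positivity
    have a1 : (2 * (M:ℝ) + X / M^2 + 1) * YY i ^ (3 * rr i) + YY i ^ (5 * rr i) ≤
        (2 * M + X / M^2 + 2) * YY i ^ (5 * rr i) := by
      have := mul_le_mul_of_nonneg_left hp35 a0
      nlinarith
    refine (mul_le_mul_of_nonneg_left a1 hM0.le).trans ?_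
    have a2 : (M:ℝ) * ((2 * M + X / M^2 + 2) * YY i ^ (5 * rr i)) =
        (2 * (M:ℝ)^2 + X / M + 2 * M) * YY i ^ (5 * rr i) := by
      field_simp
    rw [a2]
    have a3 : (M:ℝ)^2 ≤ X / (4 * B) := by
      rw [le_div_iff₀ (by positivity)]; linarith
    have a4 : (M:ℝ) ≤ M^2 := by nlinarith
    have a5 : (X:ℝ) / M ≤ X / B := div_le_div_of_nonneg_left hX0.le hB0 hMB
    have a6 : (X:ℝ) / (4 * B) = X / B / 4 := by field_simp
    have a7 : 2 * (M:ℝ)^2 + X / M + 2 * M ≤ 3 * (X / B) := by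
      have : 0 < (X:ℝ) / B := by positivity
      rw [a6] at a3
      linarith
    refine (mul_le_mul_of_nonneg_right a7 hp5.le).trans ?_
    have a8 : YY i ^ (5 * rr i) / B ≤ th i := by
      rw [div_le_iff₀ hB0, hBY]
      have e2 : YY i ^ (7 * rr i) = YY i ^ (2 * rr i) * YY i ^ (5 * rr i) := by
        have e1 : 2 * rr i + 5 * rr i = 7 * rr i := by ring
        rw [← pow_add, e1]
      rw [e2]
      have h5 := inv_YY_le i
      have := mul_le_mul_of_nonneg_right h5 hp5.le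
      calc YY i ^ (5 * rr i) = 1 * YY i ^ (5 * rr i) := (one_mul _).symm
        _ ≤ th i * YY i ^ (2 * rr i) * YY i ^ (5 * rr i) := this
        _ = th i * (YY i ^ (2 * rr i) * YY i ^ (5 * rr i)) := by ring
    calc 3 * ((X:ℝ) / B) * YY i ^ (5 * rr i) = 3 * X * (YY i ^ (5 * rr i) / B) := by ring
      _ ≤ 3 * X * th i := mul_le_mul_of_nonneg_left a8 (by positivity)
  rw [hR, mul_add]
  linarith

lemma avg_mid (i : ℕ) :
    ((1:ℝ)/2)^(PP i).card * ∑ T ∈ (PP i).powerset, PiT T * GG i T ≤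
      Real.exp (-(2 * SS i) + 5) := by
  have h1 : ∀ T ∈ (PP i).powerset, PiT T * GG i T =
      (∏ p ∈ T, ((1 - 1/(p:ℝ)) * (1 - 2/(p:ℝ) + 4/(p:ℝ)^2))) *
      ∏ p ∈ PP i \ T, (1 - 1/(p:ℝ) + 3/(p:ℝ)^2) := by
    intro T hT
    rw [mem_powerset] at hT
    unfold PiT GG
    rw [← prod_sdiff hT, prod_mul_distrib, mul_comm (∏ p ∈ PP i \ T, _), ← mul_assoc]
    congr 1
    · congr 1
      refine prod_congr rfl fun p hp => ?_
      unfold low
      rw [if_pos hp]; ring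
    · refine prod_congr rfl fun p hp => ?_
      rw [mem_sdiff] at hp
      unfold low
      rw [if_neg hp.2]; ring
  rw [sum_congr rfl h1, avg_prod]
  have h2 : Real.exp (-(2 * SS i) + 5) ≥ ∏ p ∈ PP i, Real.exp (-(2 * (1/(p:ℝ))) + 5 * (1/(p:ℝ)^2)) := by
    rw [← Real.exp_sum, sum_add_distrib, sum_neg_distrib, ← mul_sum, ← mul_sum]
    apply Real.exp_le_exp.mpr
    have := sum_inv_sq_PP i
    unfold SS
    linarith
  refine le_trans ?_ h2
  refine prod_le_prod (fun p hp => ?_) (fun p hp => ?_)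
  · have hp3 : (3:ℝ) ≤ p := by exact_mod_cast PP_ge hp
    have hp0 : (0:ℝ) < p := by linarith
    have hx0 : (0:ℝ) < 1/(p:ℝ) := by positivity
    have hx1 : 1/(p:ℝ) ≤ 1/3 := one_div_le_one_div_of_le (by norm_num) hp3
    have e1 : 2/(p:ℝ) = 2 * (1/p) := by ring
    have e2 : 4/(p:ℝ)^2 = 4 * (1/p)^2 := by ring
    have e3 : 3/(p:ℝ)^2 = 3 * (1/p)^2 := by ring
    rw [e1, e2, e3]
    set x := 1/(p:ℝ) with hx
    have a1 : 0 ≤ (1 - x) * (1 - 2 * x + 4 * x^2) := by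
      apply mul_nonneg <;> nlinarith
    have a2 : 0 ≤ 1 - x + 3 * x^2 := by nlinarith
    linarith
  · have hp3 : (3:ℝ) ≤ p := by exact_mod_cast PP_ge hp
    have hp0 : (0:ℝ) < p := by linarith
    have hx0 : (0:ℝ) < 1/(p:ℝ) := by positivity
    have hx1 : 1/(p:ℝ) ≤ 1/3 := one_div_le_one_div_of_le (by norm_num) hp3
    have e1 : 2/(p:ℝ) = 2 * (1/p) := by ring
    have e2 : 4/(p:ℝ)^2 = 4 * (1/p)^2 := by ring
    have e3 : 3/(p:ℝ)^2 = 3 * (1/p)^2 := by ring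
    have e4 : 1/(p:ℝ)^2 = (1/p)^2 := by ring
    rw [e1, e2, e3, e4]
    set x := 1/(p:ℝ) with hx
    have h3 := Real.add_one_le_exp (-(2 * x) + 5 * x^2)
    nlinarith [pow_pos hx0 3, pow_pos hx0 2]

/-- the weighted count in one dyadic block -/
lemma mid_weighted (i X j : ℕ) (e : ℤ) (he : e = 1 ∨ e = -1)
    (h1 : bt i ≤ j) (h2 : 2^(2*j+2+bt i) ≤ X) :
    ∑ a ∈ Ioc (2^j) (2^j+2^j), ∑ ω ∈ Gd i X a e, ((1:ℝ)/2)^(oab i a ω.1 ω.2) ≤
      (2 * Real.exp 5 + 13) * X * Real.exp (-(2 * SS i)) := by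
  have e1 : ∀ a ω1 ω2, ((1:ℝ)/2)^(oab i a ω1 ω2) = ((1:ℝ)/2)^(PP i).card *
      ∑ T ∈ (PP i).powerset,
        (if ∀ p ∈ T, ¬ (p ∣ a ∨ p ∣ a * ω2 + b0 a ω1) then (1:ℝ) else 0) := by
    intro a ω1 ω2
    unfold oab
    convert half_pow (PP i) (fun p => p ∣ a ∨ p ∣ a * ω2 + b0 a ω1)
  simp only [e1]
  have e2 : ∑ a ∈ Ioc (2^j) (2^j+2^j), ∑ ω ∈ Gd i X a e, (((1:ℝ)/2)^(PP i).card *
      ∑ T ∈ (PP i).powerset,
        (if ∀ p ∈ T, ¬ (p ∣ a ∨ p ∣ a * ω.2 + b0 a ω.1) then (1:ℝ) else 0)) =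
      ((1:ℝ)/2)^(PP i).card * ∑ T ∈ (PP i).powerset, ∑ a ∈ Ioc (2^j) (2^j+2^j),
        ∑ ω ∈ Gd i X a e,
        (if ∀ p ∈ T, ¬ (p ∣ a ∨ p ∣ a * ω.2 + b0 a ω.1) then (1:ℝ) else 0) := by
    simp only [← mul_sum]
    congr 1
    rw [sum_comm]
    refine sum_congr rfl fun a _ => ?_
    rw [sum_comm]
  rw [e2]
  have e3 : ∑ T ∈ (PP i).powerset, ∑ a ∈ Ioc (2^j) (2^j+2^j), ∑ ω ∈ Gd i X a e,
        (if ∀ p ∈ T, ¬ (p ∣ a ∨ p ∣ a * ω.2 + b0 a ω.1) then (1:ℝ) else 0) ≤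
      ∑ T ∈ (PP i).powerset, (2 * X * (PiT T * GG i T) + 13 * X * th i) :=
    sum_le_sum fun T hT => sum_a i X j T (mem_powerset.mp hT) e he h1 h2
  have hp : (0:ℝ) ≤ (1/2)^(PP i).card := by positivity
  refine (mul_le_mul_of_nonneg_left e3 hp).trans ?_
  rw [sum_add_distrib, ← mul_sum, sum_const, card_powerset, nsmul_eq_mul, mul_add]
  have e4 : ((1:ℝ)/2)^(PP i).card * (((2^(PP i).card : ℕ) : ℝ) * (13 * X * th i)) =
      13 * X * th i := by
    push_cast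
    rw [← mul_assoc, ← mul_pow]; norm_num
  rw [e4]
  have e5 := avg_mid i
  have hX0 : (0:ℝ) ≤ X := by positivity
  have e6 : ((1:ℝ)/2)^(PP i).card * (2 * X * ∑ T ∈ (PP i).powerset, PiT T * GG i T) ≤
      2 * X * Real.exp (-(2 * SS i) + 5) := by
    have := mul_le_mul_of_nonneg_left e5 (show 0 ≤ 2 * (X:ℝ) by positivity)
    linarith
  have e7 := mul_le_mul_of_nonneg_left (th_le_exp i) (show 0 ≤ 13 * (X:ℝ) by positivity)
  rw [Real.exp_add] at e6
  linarith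

end Pool.Agent.H70.SymDes
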