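import Mathlib
import Pool.Agent.H70.SymDes.Mid

/-!
Counting typical integers with a representation in one dyadic block.
-/

namespace Pool.Agent.H70.SymDes

open Finset Classical Pool.Agent.H12

lemma oab_eq (i a z t : ℕ) : oab i a z t = om i (a * (a * t + b0 a z)) := by
  unfold oab om
  congr 1
  ext p
  rw [mem_filter, mem_filter]
  refine and_congr_right fun hp => ?_
  rw [(mem_PP.mp hp).2.2.dvd_mul]

lemma half_ge (i n : ℕ) (h : (om i n : ℝ) ≤ 5/4 * SS i) :
    Real.exp (-(7/8 * SS i)) ≤ ((1:ℝ)/2)^(om i n) := by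
  have e : ((1:ℝ)/2)^(om i n) = Real.exp (-(Real.log 2 * (om i n))) := by
    rw [one_div, inv_pow, Real.exp_neg]
    congr 1
    rw [← Real.exp_log (show (0:ℝ) < 2^(om i n) by positivity), Real.log_pow]
    ring_nf
  rw [e, Real.exp_le_exp]
  have h1 := Real.log_two_lt_d9
  have h2 := Real.log_two_gt_d9
  have h3 := SS_nonneg i
  have h4 : Real.log 2 * (om i n) ≤ Real.log 2 * (5/4 * SS i) :=
    mul_le_mul_of_nonneg_left h (by linarith)
  have h5 : Real.log 2 * (5/4 * SS i) ≤ 7/8 * SS i := by nlinarith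
  linarith

/-- typical integers with a representation in the block -/
noncomputable def MidSet (i j X : ℕ) : Finset ℕ :=
  (range (X+1)).filter (fun v => (om i (v-1) : ℝ) ≤ 5/4 * SS i ∧
    ∃ a z t e, Rep v a z t e ∧ a ∈ Ioc (2^j) (2^j+2^j))

lemma Rep.t_le {v a z t X : ℕ} {e : ℤ} (h : Rep v a z t e) (hv : v ≤ X) : t ≤ X / a^2 := by
  have ha := h.ha
  rw [Nat.le_div_iff_mul_le (by positivity)]
  have := h.hv
  have e1 : a * (a * t + b0 a z) + 1 = t * a^2 + a * b0 a z + 1 := by ring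
  omega

lemma mid_count (i j X : ℕ) (h1 : bt i ≤ j) (h2 : 2^(2*j+2+bt i) ≤ X) :
    ((MidSet i j X).card : ℝ) ≤
      (2 * (2 * Real.exp 5 + 13)) * X * Real.exp (-(9/8 * SS i)) := by
  set V : ℤ → Finset ℕ := fun e => (range (X+1)).filter (fun v =>
    (om i (v-1) : ℝ) ≤ 5/4 * SS i ∧
    ∃ a z t, Rep v a z t e ∧ a ∈ Ioc (2^j) (2^j+2^j)) with hV
  have hsub : MidSet i j X ⊆ V 1 ∪ V (-1) := by
    intro v hv
    unfold MidSet at hv
    rw [mem_filter] at hv
    obtain ⟨hv1, hv2, a, z, t, e, hrep, ha⟩ := hv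
    rw [mem_union]
    rcases hrep.he with he | he
    · left
      rw [hV]; simp only
      rw [mem_filter]
      rw [he] at hrep
      exact ⟨hv1, hv2, a, z, t, hrep, ha⟩
    · right
      rw [hV]; simp only
      rw [mem_filter]
      rw [he] at hrep
      exact ⟨hv1, hv2, a, z, t, hrep, ha⟩
  have key : ∀ e : ℤ, (e = 1 ∨ e = -1) → ((V e).card : ℝ) ≤
      (2 * Real.exp 5 + 13) * X * Real.exp (-(9/8 * SS i)) := by
    intro e he
    have hch : ∀ v ∈ V e, ∃ g : ℕ × (ℕ × ℕ), Rep v g.1 g.2.1 g.2.2 e ∧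
        g.1 ∈ Ioc (2^j) (2^j+2^j) := by
      intro v hv
      rw [hV] at hv
      simp only at hv
      rw [mem_filter] at hv
      obtain ⟨-, -, a, z, t, h, h'⟩ := hv
      exact ⟨(a, (z, t)), h, h'⟩
    choose! g hg1 hg2 using hch
    have hinj : Set.InjOn g (V e : Set ℕ) := by
      intro v hv v' hv' h
      have e1 := (hg1 v hv).hv
      have e2 := (hg1 v' hv').hv
      rw [← h, ← e1] at e2
      exact e2.symm
    have hw := mid_weighted i X j e he h1 h2
    rw [sum_sigma'] at hw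
    have s1 : ∑ v ∈ V e, ((1:ℝ)/2)^(oab i (g v).1 (g v).2.1 (g v).2.2) ≤
        ∑ x ∈ (Ioc (2^j) (2^j+2^j)).sigma (fun a => Gd i X a e),
          ((1:ℝ)/2)^(oab i x.1 x.2.1 x.2.2) := by
      have e1 : ∑ v ∈ V e, ((1:ℝ)/2)^(oab i (g v).1 (g v).2.1 (g v).2.2) =
        ∑ v ∈ V e, (fun x : (_ : ℕ) × (ℕ × ℕ) => ((1:ℝ)/2)^(oab i x.1 x.2.1 x.2.2))
          ((fun v => (⟨(g v).1, (g v).2⟩ : (_ : ℕ) × (ℕ × ℕ))) v) := rfl
      rw [e1, ← sum_image (f := fun x : (_ : ℕ) × (ℕ × ℕ) => ((1:ℝ)/2)^(oab i x.1 x.2.1 x.2.2))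
        (g := fun v => (⟨(g v).1, (g v).2⟩ : (_ : ℕ) × (ℕ × ℕ)))]
      · refine sum_le_sum_of_subset_of_nonneg ?_ (fun x _ _ => by positivity)
        intro x hx
        rw [mem_image] at hx
        obtain ⟨v, hv, rfl⟩ := hx
        rw [mem_sigma]
        refine ⟨hg2 v hv, ?_⟩
        have hrep := hg1 v hv
        rw [hV] at hv
        simp only at hv
        rw [mem_filter, mem_range] at hv
        unfold Gd
        simp only
        rw [mem_filter, mem_product, mem_range, mem_range]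
        refine ⟨⟨hrep.hz, ?_⟩, hrep.hc, fun p hp => hrep.hbad p (mem_PP.mp hp).2.2⟩
        have := hrep.t_le (show v ≤ X by omega)
        omega
      · intro v hv v' hv' h
        apply hinj hv hv'
        simp only [Sigma.mk.injEq, heq_eq_eq] at h
        exact Prod.ext h.1 h.2
    have s2 : (V e).card * Real.exp (-(7/8 * SS i)) ≤
        ∑ v ∈ V e, ((1:ℝ)/2)^(oab i (g v).1 (g v).2.1 (g v).2.2) := by
      rw [← nsmul_eq_mul, ← sum_const]
      refine sum_le_sum fun v hv => ?_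
      have hrep := hg1 v hv
      rw [hV] at hv
      simp only at hv
      rw [mem_filter, mem_range] at hv
      rw [oab_eq]
      have : v - 1 = (g v).1 * ((g v).1 * (g v).2.2 + b0 (g v).1 (g v).2.1) := by
        have := hrep.hv
        omega
      rw [← this]
      exact half_ge i (v-1) hv.2.1
    have s3 := s2.trans (s1.trans hw)
    have hpos := Real.exp_pos (-(7/8 * SS i))
    have e1 : Real.exp (-(2 * SS i)) = Real.exp (-(9/8 * SS i)) * Real.exp (-(7/8 * SS i)) := by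
      rw [← Real.exp_add]; congr 1; ring
    rw [e1, ← mul_assoc] at s3
    exact le_of_mul_le_mul_right s3 hpos
  have c1 := key 1 (Or.inl rfl)
  have c2 := key (-1) (Or.inr rfl)
  have c3 : (MidSet i j X).card ≤ (V 1).card + (V (-1)).card :=
    (card_le_card hsub).trans (card_union_le _ _)
  have c4 : ((MidSet i j X).card : ℝ) ≤ (V 1).card + (V (-1)).card := by exact_mod_cast c3
  linarith

/-! ### the top range -/

lemma avg_top (i : ℕ) :
    ((1:ℝ)/2)^(PP i).card * ∑ T ∈ (PP i).powerset, PiT T * PiT T ≤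
      Real.exp (-(SS i) + 1) := by
  have h1 : ∀ T ∈ (PP i).powerset, PiT T * PiT T =
      (∏ p ∈ T, ((1 - 1/(p:ℝ)) * (1 - 1/(p:ℝ)))) * ∏ p ∈ PP i \ T, (1:ℝ) := by
    intro T hT
    unfold PiT
    rw [prod_mul_distrib, prod_const_one, mul_one]
  rw [sum_congr rfl h1, avg_prod]
  have h2 : Real.exp (-(SS i) + 1) ≥ ∏ p ∈ PP i, Real.exp (-(1/(p:ℝ)) + (1/(p:ℝ)^2)) := by
    rw [← Real.exp_sum, sum_add_distrib, sum_neg_distrib]
    apply Real.exp_le_exp.mpr
    have := sum_inv_sq_PP i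
    unfold SS
    linarith
  refine le_trans ?_ h2
  refine prod_le_prod (fun p hp => ?_) (fun p hp => ?_)
  · have : 0 ≤ (1 - 1/(p:ℝ)) * (1 - 1/(p:ℝ)) := mul_self_nonneg _
    linarith
  · have e4 : 1/(p:ℝ)^2 = (1/p)^2 := by ring
    rw [e4]
    set x := 1/(p:ℝ) with hx
    have h3 := Real.add_one_le_exp (-x + x^2)
    nlinarith [sq_nonneg x]

/-- typical integers with a factorisation in the block -/
noncomputable def TopSet (i j X : ℕ) : Finset ℕ :=
  (range (X+1)).filter (fun v => (om i (v-1) : ℝ) ≤ 5/4 * SS i ∧ 1 < v ∧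
    ∃ a b, v = a * b + 1 ∧ a ∈ Ioc (2^j) (2^j+2^j))

lemma top_count (i j X : ℕ) (h1 : YY i ^ (3 * rr i) ≤ (2^j : ℕ))
    (h2 : YY i ^ (3 * rr i) ≤ (X / 2^j : ℕ)) :
    ((TopSet i j X).card : ℝ) ≤ (Real.exp 1 + 8) * X * Real.exp (-(1/8 * SS i)) := by
  set M := 2^j with hM
  set H := X / M with hH
  have hM0 : 0 < M := by rw [hM]; positivity
  have hMH : (M:ℝ) * H ≤ X := by
    have : M * H ≤ X := Nat.mul_div_le X M
    exact_mod_cast this
  have hw : ∑ a ∈ Ioc M (M+M), ∑ b ∈ Ioc 0 H,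
      ((1:ℝ)/2)^(((PP i).filter (fun p => p ∣ a ∨ p ∣ b)).card) ≤
      (Real.exp 1 + 8) * X * Real.exp (-SS i) := by
    have e1 : ∀ a b : ℕ, ((1:ℝ)/2)^(((PP i).filter (fun p => p ∣ a ∨ p ∣ b)).card) =
        ((1:ℝ)/2)^(PP i).card * ∑ T ∈ (PP i).powerset,
          (if ∀ p ∈ T, ¬ (p ∣ a ∨ p ∣ b) then (1:ℝ) else 0) := by
      intro a b
      convert half_pow (PP i) (fun p => p ∣ a ∨ p ∣ b)
    simp only [e1]
    have e2 : ∑ a ∈ Ioc M (M+M), ∑ b ∈ Ioc 0 H, (((1:ℝ)/2)^(PP i).card *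
        ∑ T ∈ (PP i).powerset, (if ∀ p ∈ T, ¬ (p ∣ a ∨ p ∣ b) then (1:ℝ) else 0)) =
        ((1:ℝ)/2)^(PP i).card * ∑ T ∈ (PP i).powerset, ∑ a ∈ Ioc M (M+M), ∑ b ∈ Ioc 0 H,
          (if ∀ p ∈ T, ¬ (p ∣ a ∨ p ∣ b) then (1:ℝ) else 0) := by
      simp only [← mul_sum]
      congr 1
      symm
      rw [sum_comm]
      exact sum_congr rfl fun a _ => sum_comm
    rw [e2]
    have e3 : ∀ T ∈ (PP i).powerset, ∑ a ∈ Ioc M (M+M), ∑ b ∈ Ioc 0 H,
          (if ∀ p ∈ T, ¬ (p ∣ a ∨ p ∣ b) then (1:ℝ) else 0) ≤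
          X * (PiT T * PiT T) + 8 * X * th i := by
      intro T hT
      rw [mem_powerset] at hT
      have f1 : ∑ a ∈ Ioc M (M+M), ∑ b ∈ Ioc 0 H,
          (if ∀ p ∈ T, ¬ (p ∣ a ∨ p ∣ b) then (1:ℝ) else 0) =
          (∑ a ∈ Ioc M (M+M), if ∀ p ∈ T, ¬ p ∣ a then (1:ℝ) else 0) *
          (∑ b ∈ Ioc 0 (0+H), if ∀ p ∈ T, ¬ p ∣ b then (1:ℝ) else 0) := by
        rw [zero_add, sum_mul_sum]
        refine sum_congr rfl fun a _ => sum_congr rfl fun b _ => ?_
        by_cases ha : ∀ p ∈ T, ¬ p ∣ a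
        · by_cases hb : ∀ p ∈ T, ¬ p ∣ b
          · rw [if_pos ha, if_pos hb, if_pos (fun p hp h => h.elim (ha p hp) (hb p hp))]
            ring
          · rw [if_neg hb, mul_zero, if_neg (fun h => hb fun p hp h' => h p hp (Or.inr h'))]
        · rw [if_neg ha, zero_mul, if_neg (fun h => ha fun p hp h' => h p hp (Or.inl h'))]
      rw [f1, sum_boole, sum_boole]
      have g1 := one_dim i T hT M M h1
      have g2 := one_dim i T hT 0 H h2
      have hP := PiT_bounds hT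
      have hth := th_pos i
      have hth1 := th_le_one i
      have hpos : 0 ≤ PiT T + 2 * th i := by linarith [hP.1]
      refine (mul_le_mul g1 g2 (by positivity) (by positivity)).trans ?_
      have e4 : (M:ℝ) * (PiT T + 2 * th i) * (H * (PiT T + 2 * th i)) =
          (M * H) * ((PiT T + 2 * th i) * (PiT T + 2 * th i)) := by ring
      rw [e4]
      have e5 : (PiT T + 2 * th i) * (PiT T + 2 * th i) ≤ PiT T * PiT T + 8 * th i := by
        have a1 : PiT T * th i ≤ 1 * th i := mul_le_mul_of_nonneg_right hP.2 hth.le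
        have a3 : th i * th i ≤ 1 * th i := mul_le_mul_of_nonneg_right hth1 hth.le
        nlinarith
      have e6 : 0 ≤ (PiT T + 2 * th i) * (PiT T + 2 * th i) := mul_self_nonneg _
      calc ((M:ℝ) * H) * ((PiT T + 2 * th i) * (PiT T + 2 * th i)) ≤
            X * ((PiT T + 2 * th i) * (PiT T + 2 * th i)) :=
            mul_le_mul_of_nonneg_right hMH e6
        _ ≤ X * (PiT T * PiT T + 8 * th i) := mul_le_mul_of_nonneg_left e5 (by positivity)
        _ = _ := by ring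
    have hp : (0:ℝ) ≤ (1/2)^(PP i).card := by positivity
    refine (mul_le_mul_of_nonneg_left (sum_le_sum e3) hp).trans ?_
    rw [sum_add_distrib, ← mul_sum, sum_const, card_powerset, nsmul_eq_mul, mul_add]
    have e4 : ((1:ℝ)/2)^(PP i).card * (((2^(PP i).card : ℕ) : ℝ) * (8 * X * th i)) =
        8 * X * th i := by
      push_cast
      rw [← mul_assoc, ← mul_pow]; norm_num
    rw [e4]
    have e5 := avg_top i
    have hX0 : (0:ℝ) ≤ X := by positivity
    have e6 : ((1:ℝ)/2)^(PP i).card * (X * ∑ T ∈ (PP i).powerset, PiT T * PiT T) ≤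
        X * Real.exp (-SS i + 1) := by
      have := mul_le_mul_of_nonneg_left e5 (show 0 ≤ (X:ℝ) by positivity)
      linarith
    have e8 : th i ≤ Real.exp (-SS i) := by
      refine (th_le_exp i).trans (Real.exp_le_exp.mpr ?_)
      have := SS_nonneg i
      linarith
    have e7 := mul_le_mul_of_nonneg_left e8 (show 0 ≤ 8 * (X:ℝ) by positivity)
    rw [Real.exp_add] at e6
    linarith
  -- choose
  have hch : ∀ v ∈ TopSet i j X, ∃ g : ℕ × ℕ, v = g.1 * g.2 + 1 ∧ g.1 ∈ Ioc M (M+M) := by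
    intro v hv
    unfold TopSet at hv
    rw [mem_filter] at hv
    obtain ⟨-, -, -, a, b, h, h'⟩ := hv
    exact ⟨(a, b), h, h'⟩
  choose! g hg1 hg2 using hch
  have hinj : Set.InjOn g (TopSet i j X : Set ℕ) := by
    intro v hv v' hv' h
    have e1 := hg1 v hv
    have e2 := hg1 v' hv'
    rw [← h, ← e1] at e2
    exact e2.symm
  have s1 : ∑ v ∈ TopSet i j X, ((1:ℝ)/2)^(((PP i).filter
      (fun p => p ∣ (g v).1 ∨ p ∣ (g v).2)).card) ≤
      ∑ x ∈ Ioc M (M+M) ×ˢ Ioc 0 H,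
        ((1:ℝ)/2)^(((PP i).filter (fun p => p ∣ x.1 ∨ p ∣ x.2)).card) := by
    rw [← sum_image (f := fun x : ℕ × ℕ => ((1:ℝ)/2)^(((PP i).filter
      (fun p => p ∣ x.1 ∨ p ∣ x.2)).card)) (g := g) hinj]
    refine sum_le_sum_of_subset_of_nonneg ?_ (fun x _ _ => by positivity)
    intro x hx
    rw [mem_image] at hx
    obtain ⟨v, hv, rfl⟩ := hx
    rw [mem_product]
    refine ⟨hg2 v hv, ?_⟩
    have e1 := hg1 v hv
    have e2 := hg2 v hv
    unfold TopSet at hv
    rw [mem_filter, mem_range] at hv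
    rw [mem_Ioc] at e2 ⊢
    constructor
    · apply Nat.pos_of_ne_zero
      intro h0
      rw [h0, mul_zero] at e1
      omega
    · rw [hH, Nat.le_div_iff_mul_le hM0, mul_comm]
      have : M * (g v).2 ≤ (g v).1 * (g v).2 := Nat.mul_le_mul_right _ e2.1.le
      omega
  have s2 : (TopSet i j X).card * Real.exp (-(7/8 * SS i)) ≤
      ∑ v ∈ TopSet i j X, ((1:ℝ)/2)^(((PP i).filter
        (fun p => p ∣ (g v).1 ∨ p ∣ (g v).2)).card) := by
    rw [← nsmul_eq_mul, ← sum_const]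
    refine sum_le_sum fun v hv => ?_
    have e1 := hg1 v hv
    unfold TopSet at hv
    rw [mem_filter, mem_range] at hv
    have e2 : ((PP i).filter (fun p => p ∣ (g v).1 ∨ p ∣ (g v).2)).card = om i (v-1) := by
      have e3 : v - 1 = (g v).1 * (g v).2 := by omega
      rw [e3]
      unfold om
      congr 1
      ext p
      rw [mem_filter, mem_filter]
      refine and_congr_right fun hp => ?_
      rw [(mem_PP.mp hp).2.2.dvd_mul]
    rw [e2]
    exact half_ge i (v-1) hv.2.1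
  rw [sum_product] at s1
  have s3 := s2.trans (s1.trans hw)
  have hpos := Real.exp_pos (-(7/8 * SS i))
  have e1 : Real.exp (-SS i) = Real.exp (-(1/8 * SS i)) * Real.exp (-(7/8 * SS i)) := by
    rw [← Real.exp_add]; congr 1; ring
  rw [e1, ← mul_assoc] at s3
  exact le_of_mul_le_mul_right s3 hpos

end Pool.Agent.H70.SymDes
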