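import Mathlib
import Pool.Agent.H70.SymDes.Count

/-!
Small values of `a`.
-/

namespace Pool.Agent.H70.SymDes

open Finset Classical Pool.Agent.H12 Filter Topology

lemma count_affine (P : Finset ℕ) (hP : ∀ p ∈ P, p.Prime) (y x0 N : ℕ)
    (hy : ∀ p ∈ P, ¬ p ∣ y) :
    (((range N).filter (fun t => ∀ p ∈ P, ¬ (p ∣ y*t+x0 ∧ ¬ p^2 ∣ y*t+x0))).card : ℝ) ≤
      2 * (N + Qsq P) * delta0 P := by
  set Q := Qsq P with hQ
  have hQ0 : 0 < Q := prod_pos fun p hp => pow_pos (hP p hp).pos 2
  have hQ' : (0:ℝ) < Q := by exact_mod_cast hQ0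
  set C : ℕ → Prop := fun w => ∀ p ∈ P, ¬ (p ∣ w ∧ ¬ p^2 ∣ w) with hC
  have hCmod : ∀ w w', w ≡ w' [MOD Q] → (C w ↔ C w') := by
    intro w w' h
    rw [hC]
    simp only
    refine forall₂_congr fun p hp => ?_
    have h2 : w ≡ w' [MOD p^2] := h.of_dvd (Finset.dvd_prod_of_mem (fun p => p^2) hp)
    have h1 : w ≡ w' [MOD p] := h2.of_dvd (Dvd.intro_left (p^1) rfl)
    rw [h1.dvd_iff dvd_rfl, h2.dvd_iff dvd_rfl]
  set F : ℕ → ℝ := fun t => if C (y*t+x0) then 1 else 0 with hF
  have hF0 : ∀ t, 0 ≤ F t := fun t => by rw [hF]; simp only; split_ifs <;> norm_num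
  have hFper : ∀ t, F (t % Q) = F t := by
    intro t
    rw [hF]
    simp only
    have : C (y * (t % Q) + x0) ↔ C (y*t+x0) :=
      hCmod _ _ (((Nat.mod_modEq t Q).mul_left _).add_right _)
    simp only [this]
  have h1 := per_avg Q hQ0 F hFper hF0 N
  have h2 : ∑ t ∈ range Q, F t = (((range Q).filter C).card : ℝ) := by
    have hcop : Nat.Coprime y Q := by
      rw [hQ]
      unfold Qsq
      refine Nat.Coprime.prod_right fun p hp => ?_
      exact (Nat.Coprime.pow_left 2 ((Nat.Prime.coprime_iff_not_dvd (hP p hp)).mpr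
        (hy p hp))).symm
    have h3 := card_affine Q y x0 hQ0 hcop C
    rw [hF, sum_boole, ← h3]
    congr 2
    ext t
    rw [mem_filter, mem_filter]
    refine and_congr_right fun _ => ?_
    exact hCmod _ _ (Nat.mod_modEq _ _).symm
  have h3 := count_not_exactly P hP Q
  have h3' : (((range Q).filter C).card : ℝ) ≤ (Q + Q) * delta0 P := by
    convert h3
  have h4 : (((range N).filter (fun t => ∀ p ∈ P, ¬ (p ∣ y*t+x0 ∧ ¬ p^2 ∣ y*t+x0))).card : ℝ) =
      ∑ t ∈ range N, F t := by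
    rw [hF, sum_boole]
  rw [h4]
  rw [abs_le] at h1
  have h5 : ∑ t ∈ range N, F t ≤ ((N:ℝ)/Q + 1) * (((range Q).filter C).card : ℝ) := by
    rw [← h2]; linarith [h1.2]
  refine h5.trans ((mul_le_mul_of_nonneg_left h3' (by positivity)).trans (le_of_eq ?_))
  field_simp
  ring

/-- integers with a representation with given `a, z, e` -/
noncomputable def Lz (a z : ℕ) (e : ℤ) (X : ℕ) : Finset ℕ :=
  (range (X+1)).filter (fun v => ∃ t, Rep v a z t e ∧ (e = -1 → ¬ IsSquare ((a - z) * z)))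

lemma Lz_small (a z : ℕ) (e : ℤ) (η : ℝ) (hη : 0 < η) :
    ∀ᶠ X : ℕ in atTop, ((Lz a z e X).card : ℝ) ≤ η * X := by
  by_cases hcond : 2 ≤ a ∧ 0 < z ∧ z < a ∧ (e = 1 ∨ (e = -1 ∧ ¬ IsSquare ((a - z) * z)))
  swap
  · filter_upwards with X
    have : Lz a z e X = ∅ := by
      unfold Lz
      rw [filter_eq_empty_iff]
      rintro v _ ⟨t, h, hsq⟩
      apply hcond
      refine ⟨h.ha, h.hz0, h.hz, ?_⟩
      rcases h.he with he | he
      · exact Or.inl he
      · exact Or.inr ⟨he, hsq he⟩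
    rw [this, card_empty]
    push_cast
    positivity
  obtain ⟨ha, hz0, hz, he⟩ := hcond
  have ha0 : (0:ℤ) < a := by exact_mod_cast (by omega : 0 < a)
  have hz0' : (0:ℤ) < z := by exact_mod_cast hz0
  have hza : (0:ℤ) < (a:ℤ) - z := by
    have : (z:ℤ) < a := by exact_mod_cast hz
    linarith
  set D : ℤ := -e * ((a:ℤ) - z) * z * a^2 with hD
  have hDsq : ¬ IsSquare D := by
    rintro ⟨s, hs⟩
    rcases he with he | ⟨he, hns⟩
    · have h1 : 0 ≤ s * s := mul_self_nonneg s
      have h2 : D < 0 := by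
        rw [hD, he]
        have : 0 < ((a:ℤ) - z) * z * a^2 := by positivity
        linarith
      rw [hs] at h2
      linarith
    · apply hns
      have h1 : ((((a - z) * z) * a^2 : ℕ) : ℤ) = s * s := by
        rw [← hs, hD, he]
        push_cast [Nat.cast_sub hz.le]
        ring
      have h2 : ((a - z) * z) * a^2 = s.natAbs * s.natAbs := by
        have : ((s.natAbs * s.natAbs : ℕ) : ℤ) = s * s := by
          push_cast
          exact Int.natAbs_mul_self' s |>.symm ▸ by simp
        have h3 := h1.trans this.symm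
        exact_mod_cast h3
      have h3 : a^2 ∣ s.natAbs^2 := ⟨(a - z) * z, by rw [sq, ← h2]; ring⟩
      have h4 : a ∣ s.natAbs := (Nat.pow_dvd_pow_iff (by norm_num)).mp h3
      obtain ⟨c, hc⟩ := h4
      refine ⟨c, ?_⟩
      rw [hc] at h2
      have h5 : a^2 * ((a - z) * z) = a^2 * (c * c) := by
        calc a^2 * ((a - z) * z) = ((a - z) * z) * a^2 := by ring
          _ = a * c * (a * c) := h2
          _ = a^2 * (c * c) := by ring
      exact Nat.eq_of_mul_eq_mul_left (by positivity) h5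
  obtain ⟨P, hP, hδ⟩ := delta0_small D hDsq (η/4) (by positivity)
  have hPp : ∀ p ∈ P, p.Prime := fun p hp => (hP p hp).1
  have hPa : ∀ p ∈ P, ¬ p ∣ a := by
    intro p hp h
    apply (hP p hp).2
    have : (a : ZMod p) = 0 := by rwa [ZMod.natCast_eq_zero_iff]
    rw [hD]; push_cast
    rw [this]; simp
  have hPy : ∀ p ∈ P, ¬ p ∣ a - z := by
    intro p hp h
    apply (hP p hp).2
    have : ((a - z : ℕ) : ZMod p) = 0 := by rwa [ZMod.natCast_eq_zero_iff]
    rw [Nat.cast_sub hz.le] at this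
    rw [hD]; push_cast
    rw [this]; simp
  have hPn : ∀ p ∈ P, ¬ IsSquare (-(e : ZMod p) * ((a:ZMod p) - z) * z) := by
    intro p hp h
    apply (hP p hp).2
    rw [hD]; push_cast
    exact h.mul (IsSquare.sq _)
  have hcount : ∀ X : ℕ, ((Lz a z e X).card : ℝ) ≤ 2 * (((X+1 : ℕ):ℝ) + Qsq P) * delta0 P := by
    intro X
    refine le_trans ?_ (count_affine P hPp (a - z) (xx0 a z) (X+1) hPy)
    have hch : ∀ v ∈ Lz a z e X, ∃ t, Rep v a z t e := by
      intro v hv
      unfold Lz at hv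
      rw [mem_filter] at hv
      obtain ⟨-, t, h, -⟩ := hv
      exact ⟨t, h⟩
    choose! g hg using hch
    have : (Lz a z e X).card ≤ ((range (X+1)).filter (fun t => ∀ p ∈ P,
        ¬ (p ∣ (a-z)*t+xx0 a z ∧ ¬ p^2 ∣ (a-z)*t+xx0 a z))).card := by
      refine card_le_card_of_injOn g ?_ ?_
      · intro v hv
        rw [mem_coe] at hv
        have hrep := hg v hv
        unfold Lz at hv
        rw [mem_filter, mem_range] at hv
        rw [mem_coe, mem_filter, mem_range]
        constructor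
        · have h1 := hrep.t_le (show v ≤ X by omega)
          have h2 : X / a^2 ≤ X := Nat.div_le_self _ _
          omega
        · intro p hp hbad
          exact hrep.hbad p (hPp p hp) (Or.inr (Or.inr ⟨hPa p hp, hPn p hp, hbad⟩))
      · intro v hv v' hv' h
        rw [mem_coe] at hv hv'
        have e1 := (hg v hv).hv
        have e2 := (hg v' hv').hv
        rw [← h, ← e1] at e2
        exact e2.symm
    exact_mod_cast this
  have hδ0 : 0 ≤ delta0 P := by
    unfold delta0
    refine prod_nonneg fun p hp => ?_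
    have h1 : (1:ℝ) ≤ p := by exact_mod_cast (hPp p hp).one_lt.le
    have : ((p:ℝ)-1)/(p^2) ≤ 1 := by
      rw [div_le_one (by positivity)]; nlinarith
    linarith
  filter_upwards [eventually_ge_atTop (1 + Qsq P)] with X hX
  refine (hcount X).trans ?_
  have hX' : (1:ℝ) + Qsq P ≤ X := by exact_mod_cast hX
  push_cast
  calc 2 * ((X:ℝ) + 1 + Qsq P) * delta0 P ≤ 2 * (X + X) * delta0 P := by
        apply mul_le_mul_of_nonneg_right _ hδ0
        linarith
    _ ≤ 2 * (X + X) * (η/4) := by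
        apply mul_le_mul_of_nonneg_left hδ.le (by positivity)
    _ = η * X := by ring

/-- integers with a representation with small `a` -/
noncomputable def LowSet (B X : ℕ) : Finset ℕ :=
  (range (X+1)).filter (fun v => ∃ a z t e, Rep v a z t e ∧
    (e = -1 → ¬ IsSquare ((a - z) * z)) ∧ a ≤ B)

lemma low_small (B : ℕ) (ε : ℝ) (hε : 0 < ε) :
    ∀ᶠ X : ℕ in atTop, ((LowSet B X).card : ℝ) ≤ ε * X := by
  set I := (range (B+1) ×ˢ range (B+1)) ×ˢ ({1, -1} : Finset ℤ) with hI
  set η := ε / (I.card + 1) with hη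
  have hη0 : 0 < η := by positivity
  have h1 : ∀ᶠ X : ℕ in atTop, ∀ x ∈ I, ((Lz x.1.1 x.1.2 x.2 X).card : ℝ) ≤ η * X := by
    rw [Filter.eventually_all_finset]
    intro x _
    exact Lz_small x.1.1 x.1.2 x.2 η hη0
  filter_upwards [h1] with X hX
  have hsub : LowSet B X ⊆ I.biUnion (fun x => Lz x.1.1 x.1.2 x.2 X) := by
    intro v hv
    unfold LowSet at hv
    rw [mem_filter] at hv
    obtain ⟨hv1, a, z, t, e, hrep, hsq, haB⟩ := hv
    rw [mem_biUnion]
    refine ⟨((a, z), e), ?_, ?_⟩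
    · rw [hI, mem_product, mem_product, mem_range, mem_range]
      have := hrep.hz
      refine ⟨⟨by simp only; omega, by simp only; omega⟩, ?_⟩
      rcases hrep.he with h | h
      · rw [h]; simp
      · rw [h]; simp
    · unfold Lz
      rw [mem_filter]
      exact ⟨hv1, t, hrep, hsq⟩
  have h2 : ((LowSet B X).card : ℝ) ≤ ∑ x ∈ I, ((Lz x.1.1 x.1.2 x.2 X).card : ℝ) := by
    have := (card_le_card hsub).trans card_biUnion_le
    exact_mod_cast this
  refine h2.trans ((sum_le_sum hX).trans ?_)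
  rw [sum_const, nsmul_eq_mul, hη]
  have hX0 : (0:ℝ) ≤ X := by positivity
  have h3 : (I.card : ℝ) * (ε / (I.card + 1)) ≤ ε := by
    rw [mul_div_assoc', div_le_iff₀ (by positivity)]
    nlinarith
  calc (I.card : ℝ) * (ε / (I.card + 1) * X) = (I.card : ℝ) * (ε / (I.card + 1)) * X := by ring
    _ ≤ ε * X := mul_le_mul_of_nonneg_right h3 hX0

end Pool.Agent.H70.SymDes
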