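import Mathlib
import Pool.Agent.H70.SymDes.Low

/-!
Almost all `v`.
-/

namespace Pool.Agent.H70.SymDes

open Finset Classical Pool.Agent.H12 Filter Topology

/-- there is a nontrivial symmetric design on `v` points which does not have
`v % 4 = 3` and a square ratio -/
def Exc (A v : ℕ) : Prop :=
  ∃ k l, 1 < k ∧ k + 1 < v ∧ SymmetricDesignExists v k l ∧ ¬ (v % 4 = 3 ∧ SquareRatio A v k)

noncomputable def At (i X : ℕ) : Finset ℕ :=
  (range (X+1)).filter (fun v => 1 < v ∧ 5/4 * SS i < om i (v-1))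

lemma card_At (i X : ℕ) : ((At i X).card : ℝ) ≤ X * Real.exp (-(SS i / 40)) := by
  refine le_trans ?_ (atypical i X)
  have : (At i X).card ≤ ((Ioc 0 X).filter (fun n => 5/4 * SS i < om i n)).card := by
    refine card_le_card_of_injOn (fun v => v - 1) ?_ ?_
    · intro v hv
      rw [mem_coe] at hv
      unfold At at hv
      rw [mem_filter, mem_range] at hv
      rw [mem_coe, mem_filter, mem_Ioc]
      refine ⟨⟨?_, ?_⟩, hv.2.2⟩
      · have := hv.2.1
        simp only; omega
      · simp only; omega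
    · intro v hv v' hv' h
      rw [mem_coe] at hv hv'
      unfold At at hv hv'
      rw [mem_filter] at hv hv'
      simp only at h
      omega
  exact_mod_cast this

lemma bt_ge (i : ℕ) : i ≤ bt i := by
  unfold bt rr
  have h1 : 1 ≤ 2^i := Nat.one_le_two_pow
  calc i ≤ 7 * (100 * (i+2)) * 1 := by omega
    _ ≤ 7 * (100 * (i+2)) * 2^i := Nat.mul_le_mul_left _ h1

lemma bt_mono {i i' : ℕ} (h : i ≤ i') : bt i ≤ bt i' := by
  unfold bt rr
  apply Nat.mul_le_mul
  · omega
  · exact Nat.pow_le_pow_right (by norm_num) h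

lemma bt_succ (i : ℕ) : (bt (i+1) : ℝ) = 1400 * (i + 3) * 2^i := by
  unfold bt rr
  push_cast
  ring

/-- the constant of the middle range -/
noncomputable def CM : ℝ := 2 * (2 * Real.exp 5 + 13)

lemma summable_fT : Summable (fun i : ℕ => Real.exp (-(SS i / 40))) := by
  have h1 : Summable (fun i : ℕ => Real.exp (3 * Real.log 2 / 40) *
      (Real.exp (-(Real.log 2 / 40)))^i) := by
    apply Summable.mul_left
    apply summable_geometric_of_lt_one (Real.exp_pos _).le
    rw [Real.exp_lt_one_iff]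
    have := Real.log_pos (show (1:ℝ) < 2 by norm_num)
    linarith
  refine Summable.of_nonneg_of_le (fun i => (Real.exp_pos _).le) (fun i => ?_) h1
  rw [← Real.exp_nat_mul, ← Real.exp_add, Real.exp_le_exp]
  have := SS_ge i
  linarith

lemma summable_fM : Summable (fun i : ℕ =>
    (2 * (bt (i+1) : ℝ)) * (CM * Real.exp (-(9/8 * SS i)))) := by
  have hlog := Real.log_pos (show (1:ℝ) < 2 by norm_num)
  set ρ := Real.exp (-(Real.log 2 / 8)) with hρ
  have hρ1 : ‖ρ‖ < 1 := by
    rw [Real.norm_eq_abs, abs_of_pos (Real.exp_pos _), Real.exp_lt_one_iff]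
    linarith
  have h0 := summable_pow_mul_geometric_of_norm_lt_one (R := ℝ) 1 hρ1
  have h0' := summable_pow_mul_geometric_of_norm_lt_one (R := ℝ) 0 hρ1
  have h1 : Summable (fun i : ℕ => (2800 * CM * Real.exp (27/8 * Real.log 2)) *
      (((i:ℝ)^1 * ρ^i) + 3 * ((i:ℝ)^0 * ρ^i))) :=
    (h0.add (h0'.mul_left 3)).mul_left _
  have hCM : 0 < CM := by unfold CM; positivity
  refine Summable.of_nonneg_of_le (fun i => by positivity) (fun i => ?_) h1
  rw [bt_succ]
  have h2 : Real.exp (-(9/8 * SS i)) ≤ Real.exp (27/8 * Real.log 2) *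
      Real.exp (-(9/8 * Real.log 2) * i) := by
    rw [← Real.exp_add, Real.exp_le_exp]
    have := SS_ge i
    nlinarith
  have h3 : (2:ℝ)^i = Real.exp (Real.log 2 * i) := by
    rw [← Real.exp_log (show (0:ℝ) < 2^i by positivity), Real.log_pow]
    ring_nf
  have h4 : ρ^i = Real.exp (-(Real.log 2 / 8) * i) := by
    rw [hρ, ← Real.exp_nat_mul]; ring_nf
  have h5 : Real.exp (Real.log 2 * i) * Real.exp (-(9/8 * Real.log 2) * i) = ρ^i := by
    rw [h4, ← Real.exp_add]; congr 1; ring
  rw [pow_one, pow_zero, one_mul, h3]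
  calc 2 * (1400 * ((i:ℝ) + 3) * Real.exp (Real.log 2 * i)) * (CM * Real.exp (-(9/8 * SS i)))
      ≤ 2 * (1400 * ((i:ℝ) + 3) * Real.exp (Real.log 2 * i)) * (CM *
        (Real.exp (27/8 * Real.log 2) * Real.exp (-(9/8 * Real.log 2) * i))) := by
        gcongr
    _ = (2800 * CM * Real.exp (27/8 * Real.log 2)) * (((i:ℝ) + 3) *
        (Real.exp (Real.log 2 * i) * Real.exp (-(9/8 * Real.log 2) * i))) := by ring
    _ = _ := by rw [h5]; ring

lemma tail_small (f : ℕ → ℝ) (hf : Summable f) (η : ℝ) (hη : 0 < η) :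
    ∃ n0, ∀ i0 L, n0 ≤ i0 → ∑ i ∈ Icc i0 L, f i ≤ η := by
  obtain ⟨s, hs⟩ := summable_iff_vanishing_norm.mp hf η hη
  refine ⟨s.sup id + 1, fun i0 L hi0 => ?_⟩
  have h := hs (Icc i0 L) (by
    rw [disjoint_left]
    intro i hi hi'
    have : i ≤ s.sup id := Finset.le_sup (f := id) hi'
    rw [mem_Icc] at hi
    omega)
  rw [Real.norm_eq_abs] at h
  exact (le_abs_self _).trans h.le

/-- the blocks treated with scale `i` -/
noncomputable def JJ (i L : ℕ) : Finset ℕ := (range (L+1)).filter (fun j =>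
  bt i ≤ j ∧ 2*j+2+bt i ≤ L ∧ (j < bt (i+1) ∨ L < 2*j+2+bt (i+1)))

lemma card_JJ (i L : ℕ) : (JJ i L).card ≤ 2 * bt (i+1) := by
  have hsub : JJ i L ⊆ range (bt (i+1)) ∪ (range (L+1)).filter (fun j =>
      2*j+2 ≤ L ∧ L < 2*j+2+bt (i+1)) := by
    intro j hj
    unfold JJ at hj
    rw [mem_filter] at hj
    rw [mem_union, mem_range, mem_filter]
    rcases hj.2.2.2 with h | h
    · left; exact h
    · right; exact ⟨hj.1, by omega, h⟩
  have h2 : ((range (L+1)).filter (fun j => 2*j+2 ≤ L ∧ L < 2*j+2+bt (i+1))).card ≤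
      (range (bt (i+1))).card := by
    refine card_le_card_of_injOn (fun j => L - (2*j+2)) ?_ ?_
    · intro j hj
      rw [mem_coe, mem_filter] at hj
      rw [mem_coe, mem_range]
      simp only
      omega
    · intro j hj j' hj' h
      rw [mem_coe, mem_filter] at hj hj'
      simp only at h
      omega
  have h3 := (card_le_card hsub).trans (card_union_le _ _)
  rw [card_range] at h3 h2
  omega

/-- the top blocks -/
noncomputable def JT (b L : ℕ) : Finset ℕ := (range (L+1)).filter (fun j =>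
  2*j ≤ L ∧ L < 2*j+2+b)

lemma card_JT (b L : ℕ) : (JT b L).card ≤ b + 2 := by
  have h2 : (JT b L).card ≤ (range (b+2)).card := by
    refine card_le_card_of_injOn (fun j => L - 2*j) ?_ ?_
    · intro j hj
      unfold JT at hj
      rw [mem_coe, mem_filter] at hj
      rw [mem_coe, mem_range]
      simp only
      omega
    · intro j hj j' hj' h
      unfold JT at hj hj'
      rw [mem_coe, mem_filter] at hj hj'
      simp only at h
      omega
  rwa [card_range] at h2

lemma exists_scale (i0 m : ℕ) (h : bt i0 ≤ m) : ∃ i, i0 ≤ i ∧ i ≤ m ∧ bt i ≤ m ∧ m < bt (i+1) := by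
  set i := Nat.findGreatest (fun i => bt i ≤ m) m with hi
  have h1 : bt i ≤ m := by
    have := Nat.findGreatest_spec (P := fun i => bt i ≤ m) (n := m) (m := i0)
      ((bt_ge i0).trans h) h
    exact this
  refine ⟨i, Nat.le_findGreatest ((bt_ge i0).trans h) h, Nat.findGreatest_le m, h1, ?_⟩
  by_contra hcon
  push Not at hcon
  have h2 : i + 1 ≤ m := (bt_ge (i+1)).trans hcon
  have h3 := Nat.findGreatest_is_greatest (P := fun i => bt i ≤ m) (n := m) (k := i+1)
    (by omega) h2
  exact h3 hcon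

/-- the integers treated by the sieve in the middle and top ranges, and the atypical ones -/
noncomputable def Rest (i0 i1 X : ℕ) : Finset ℕ :=
  (Icc i0 (Nat.log 2 X)).biUnion (fun i => At i X) ∪ (At i1 X ∪
    ((Icc i0 (Nat.log 2 X)).biUnion (fun i =>
      (JJ i (Nat.log 2 X)).biUnion (fun j => MidSet i j X)) ∪
      (JT (bt i0) (Nat.log 2 X)).biUnion (fun j => TopSet i1 j X)))

lemma mem_rest {i0 i1 X v a z t : ℕ} (hX : X ≠ 0) (hvX : v < X + 1)
    (hrep : Rep v a z t (e0 v)) (hlow : ¬ a ≤ 2^(bt i0)) : v ∈ Rest i0 i1 X := by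
  unfold Rest
  set L := Nat.log 2 X with hL
  rw [mem_union, mem_union, mem_union]
  have ha2 := hrep.ha
  set j := Nat.log 2 (a-1) with hj
  have hj1 : 2^j ≤ a - 1 := Nat.pow_log_le_self 2 (by omega)
  have hj2 : a - 1 < 2^(j+1) := Nat.lt_pow_succ_log_self (by norm_num) _
  have haj : a ∈ Ioc (2^j) (2^j+2^j) := by
    rw [mem_Ioc]
    rw [pow_succ] at hj2
    omega
  have hjb : bt i0 ≤ j := by
    by_contra hcon
    push Not at hcon
    have : 2^(j+1) ≤ 2^(bt i0) := Nat.pow_le_pow_right (by norm_num) hcon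
    omega
  -- a^2 < v
  have hav : a^2 ≤ X := by
    have h1 := hrep.hv
    have h2 := hrep.hb
    have h3 : a * a ≤ a * (a * t + b0 a z) := Nat.mul_le_mul_left a h2.le
    rw [sq]; omega
  have hjL : 2*j ≤ L := by
    rw [hL, Nat.le_log_iff_pow_le (by norm_num) hX]
    calc 2^(2*j) = (2^j)^2 := by rw [← pow_mul]; ring_nf
      _ ≤ a^2 := Nat.pow_le_pow_left (by omega) 2
      _ ≤ X := hav
  have hv1 : 1 < v := by
    have h1 := hrep.hv
    have h2 := hrep.hb
    have h3 : a * a ≤ a * (a * t + b0 a z) := Nat.mul_le_mul_left a h2.le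
    have h4 : 0 < a * a := by positivity
    omega
  by_cases htop : L < 2*j+2+bt i0
  · by_cases hty : 5/4 * SS i1 < om i1 (v-1)
    · right; left
      unfold At
      rw [mem_filter, mem_range]
      exact ⟨hvX, hv1, hty⟩
    · right; right; right
      rw [mem_biUnion]
      refine ⟨j, ?_, ?_⟩
      · unfold JT
        rw [mem_filter, mem_range]
        exact ⟨by omega, hjL, htop⟩
      · unfold TopSet
        rw [mem_filter, mem_range]
        exact ⟨hvX, not_lt.mp hty, hv1, a, _, hrep.hv, haj⟩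
  · push Not at htop
    obtain ⟨i, hi0, him, hbi, hbi'⟩ := exists_scale i0 (min j (L - (2*j+2))) (by
      rw [le_min_iff]; constructor <;> omega)
    have hiL : i ∈ Icc i0 L := by
      rw [mem_Icc]
      have := min_le_left j (L - (2*j+2))
      omega
    have hb1 := hbi.trans (min_le_left _ _)
    have hb2 := hbi.trans (min_le_right _ _)
    by_cases hty : 5/4 * SS i < om i (v-1)
    · left
      rw [mem_biUnion]
      refine ⟨i, hiL, ?_⟩
      unfold At
      rw [mem_filter, mem_range]
      exact ⟨hvX, hv1, hty⟩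
    · right; right; left
      rw [mem_biUnion]
      refine ⟨i, hiL, ?_⟩
      rw [mem_biUnion]
      refine ⟨j, ?_, ?_⟩
      · unfold JJ
        rw [mem_filter, mem_range]
        refine ⟨by omega, hb1, by omega, ?_⟩
        rcases min_lt_iff.mp hbi' with h | h
        · left; exact h
        · right; omega
      · unfold MidSet
        rw [mem_filter, mem_range]
        exact ⟨hvX, not_lt.mp hty, a, z, t, e0 v, hrep, haj⟩

/-- the middle and top ranges and the atypical integers contribute little -/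
theorem rest_small (ε : ℝ) (hε : 0 < ε) :
    ∃ i0 i1 : ℕ, ∀ᶠ X : ℕ in atTop, ((Rest i0 i1 X).card : ℝ) ≤ ε * X := by
  obtain ⟨n1, hn1⟩ := tail_small _ summable_fT (ε/5) (by positivity)
  obtain ⟨n2, hn2⟩ := tail_small _ summable_fM (ε/5) (by positivity)
  set i0 := max n1 n2 with hi0
  -- choose i1
  have hT0 := summable_fT.tendsto_atTop_zero
  set b := bt i0 with hb
  obtain ⟨i1, h1a, h1b⟩ : ∃ i1, Real.exp (-(SS i1 / 40)) ≤ ε/5 ∧
      ((b:ℝ) + 2) * ((Real.exp 1 + 8) * Real.exp (-(1/8 * SS i1))) ≤ ε/10 := by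
    have hpos : 0 < ε / (10 * ((b:ℝ) + 2) * (Real.exp 1 + 8)) := by positivity
    have e1 := (hT0.eventually (gt_mem_nhds (show 0 < ε/5 by positivity))).and
      (hT0.eventually (gt_mem_nhds hpos))
    obtain ⟨i1, h1, h2⟩ := e1.exists
    refine ⟨i1, h1.le, ?_⟩
    have h3 : Real.exp (-(1/8 * SS i1)) ≤ Real.exp (-(SS i1 / 40)) := by
      rw [Real.exp_le_exp]
      have := SS_nonneg i1
      linarith
    have h4 : Real.exp (-(1/8 * SS i1)) ≤ ε / (10 * ((b:ℝ) + 2) * (Real.exp 1 + 8)) :=
      h3.trans h2.le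
    rw [le_div_iff₀ (by positivity)] at h4
    nlinarith
  refine ⟨i0, i1, ?_⟩
  filter_upwards [eventually_ge_atTop (2^(2 * bt i1 + b + 2))] with X hXL
  have hX0 : X ≠ 0 := by
    have : 0 < 2^(2 * bt i1 + b + 2) := by positivity
    omega
  set L := Nat.log 2 X with hL
  have hL1 : 2 * bt i1 + b + 2 ≤ L := by
    rw [hL, Nat.le_log_iff_pow_le (by norm_num) hX0]; exact hXL
  have hLX : 2^L ≤ X := Nat.pow_log_le_self 2 hX0
  have hXr : (0:ℝ) ≤ X := by positivity
  have c2 := card_union_le ((Icc i0 L).biUnion (fun i => At i X)) (At i1 X ∪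
      ((Icc i0 L).biUnion (fun i => (JJ i L).biUnion (fun j => MidSet i j X)) ∪
        (JT (bt i0) L).biUnion (fun j => TopSet i1 j X)))
  have c3 := card_union_le (At i1 X)
      ((Icc i0 L).biUnion (fun i => (JJ i L).biUnion (fun j => MidSet i j X)) ∪
        (JT (bt i0) L).biUnion (fun j => TopSet i1 j X))
  have c4 := card_union_le ((Icc i0 L).biUnion (fun i =>
    (JJ i L).biUnion (fun j => MidSet i j X))) ((JT (bt i0) L).biUnion (fun j => TopSet i1 j X))
  have d1 : (((Icc i0 L).biUnion (fun i => At i X)).card : ℝ) ≤ ε/5 * X := by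
    have e1 : (((Icc i0 L).biUnion (fun i => At i X)).card : ℝ) ≤
        ∑ i ∈ Icc i0 L, ((At i X).card : ℝ) := by exact_mod_cast card_biUnion_le
    refine e1.trans ((sum_le_sum fun i _ => card_At i X).trans ?_)
    rw [← mul_sum]
    have := hn1 i0 L (le_max_left _ _)
    have := mul_le_mul_of_nonneg_left this hXr
    linarith
  have d2 : ((At i1 X).card : ℝ) ≤ ε/5 * X := by
    refine (card_At i1 X).trans ?_
    have := mul_le_mul_of_nonneg_left h1a hXr
    linarith
  have d3 : (((Icc i0 L).biUnion (fun i =>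
      (JJ i L).biUnion (fun j => MidSet i j X))).card : ℝ) ≤ ε/5 * X := by
    have e1 : (((Icc i0 L).biUnion (fun i =>
        (JJ i L).biUnion (fun j => MidSet i j X))).card : ℝ) ≤
        ∑ i ∈ Icc i0 L, (((JJ i L).biUnion (fun j => MidSet i j X)).card : ℝ) := by
      exact_mod_cast card_biUnion_le
    refine e1.trans ?_
    have e2 : ∀ i ∈ Icc i0 L, (((JJ i L).biUnion (fun j => MidSet i j X)).card : ℝ) ≤
        X * ((2 * (bt (i+1) : ℝ)) * (CM * Real.exp (-(9/8 * SS i)))) := by
      intro i _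
      have e3 : (((JJ i L).biUnion (fun j => MidSet i j X)).card : ℝ) ≤
          ∑ j ∈ JJ i L, ((MidSet i j X).card : ℝ) := by
        exact_mod_cast card_biUnion_le
      refine e3.trans ?_
      have e4 : ∀ j ∈ JJ i L, ((MidSet i j X).card : ℝ) ≤
          CM * X * Real.exp (-(9/8 * SS i)) := by
        intro j hj
        unfold JJ at hj
        rw [mem_filter] at hj
        exact mid_count i j X hj.2.1 ((Nat.pow_le_pow_right (by norm_num) hj.2.2.1).trans hLX)
      refine (sum_le_sum e4).trans ?_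
      rw [sum_const, nsmul_eq_mul]
      have hCM : 0 < CM := by unfold CM; positivity
      have e5 : ((JJ i L).card : ℝ) ≤ 2 * (bt (i+1) : ℝ) := by exact_mod_cast card_JJ i L
      calc ((JJ i L).card : ℝ) * (CM * X * Real.exp (-(9/8 * SS i))) ≤
            (2 * (bt (i+1) : ℝ)) * (CM * X * Real.exp (-(9/8 * SS i))) := by
            apply mul_le_mul_of_nonneg_right e5 (by positivity)
        _ = _ := by ring
    refine (sum_le_sum e2).trans ?_
    rw [← mul_sum]
    have := hn2 i0 L (le_max_right _ _)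
    have := mul_le_mul_of_nonneg_left this hXr
    linarith
  have d4 : (((JT (bt i0) L).biUnion (fun j => TopSet i1 j X)).card : ℝ) ≤ ε/10 * X := by
    have e1 : (((JT (bt i0) L).biUnion (fun j => TopSet i1 j X)).card : ℝ) ≤
        ∑ j ∈ JT (bt i0) L, ((TopSet i1 j X).card : ℝ) := by
      exact_mod_cast card_biUnion_le
    refine e1.trans ?_
    have e4 : ∀ j ∈ JT (bt i0) L, ((TopSet i1 j X).card : ℝ) ≤
        (Real.exp 1 + 8) * X * Real.exp (-(1/8 * SS i1)) := by
      intro j hj
      unfold JT at hj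
      rw [mem_filter, mem_range] at hj
      have hYY := YY_ge_two i1
      have e5 : YY i1 ^ (3 * rr i1) ≤ ((2^(bt i1) : ℕ) : ℝ) := by
        rw [two_pow_bt]
        exact pow_le_pow_right₀ (by linarith) (by omega)
      refine top_count i1 j X (e5.trans ?_) (e5.trans ?_)
      · have : 2^(bt i1) ≤ 2^j := Nat.pow_le_pow_right (by norm_num) (by omega)
        exact_mod_cast this
      · have : 2^(bt i1) ≤ X / 2^j := by
          rw [Nat.le_div_iff_mul_le (by positivity), ← pow_add]
          exact (Nat.pow_le_pow_right (by norm_num) (by omega)).trans hLX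
        exact_mod_cast this
    refine (sum_le_sum e4).trans ?_
    rw [sum_const, nsmul_eq_mul]
    have e5 : ((JT (bt i0) L).card : ℝ) ≤ b + 2 := by exact_mod_cast card_JT (bt i0) L
    calc ((JT (bt i0) L).card : ℝ) * ((Real.exp 1 + 8) * X * Real.exp (-(1/8 * SS i1))) ≤
          ((b:ℝ) + 2) * ((Real.exp 1 + 8) * X * Real.exp (-(1/8 * SS i1))) := by
          apply mul_le_mul_of_nonneg_right e5 (by positivity)
      _ = ((b:ℝ) + 2) * ((Real.exp 1 + 8) * Real.exp (-(1/8 * SS i1))) * X := by ring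
      _ ≤ ε/10 * X := mul_le_mul_of_nonneg_right h1b hXr
  have htot : ((Rest i0 i1 X).card : ℝ) ≤
      ((Icc i0 L).biUnion (fun i => At i X)).card + ((At i1 X).card +
      (((Icc i0 L).biUnion (fun i => (JJ i L).biUnion (fun j => MidSet i j X))).card +
        ((JT (bt i0) L).biUnion (fun j => TopSet i1 j X)).card)) := by
    have := c2.trans (Nat.add_le_add_left (c3.trans (Nat.add_le_add_left c4 _)) _)
    unfold Rest
    exact_mod_cast this
  linarith

theorem exc_small (ε : ℝ) (hε : 0 < ε) :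
    ∃ A : ℕ, ∀ᶠ X : ℕ in atTop, (((range (X+1)).filter (Exc A)).card : ℝ) ≤ ε * X := by
  obtain ⟨i0, i1, hrest⟩ := rest_small (ε/2) (by positivity)
  refine ⟨2^(bt i0), ?_⟩
  filter_upwards [hrest, low_small (2^(bt i0)) (ε/2) (by positivity),
    eventually_gt_atTop 0] with X h1 h2 hX
  have hsub : (range (X+1)).filter (Exc (2^(bt i0))) ⊆ LowSet (2^(bt i0)) X ∪ Rest i0 i1 X := by
    intro v hv
    rw [mem_filter, mem_range] at hv
    obtain ⟨hvX, k, l, hk, hkv, hd, hex⟩ := hv
    obtain ⟨a, z, t, hrep, hr, -⟩ := exists_rep hk hkv hd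
    rw [mem_union]
    by_cases hlow : a ≤ 2^(bt i0)
    · left
      unfold LowSet
      rw [mem_filter, mem_range]
      refine ⟨hvX, a, z, t, e0 v, hrep, ?_, hlow⟩
      intro he hs
      apply hex
      refine ⟨?_, squareRatio_of_rep hrep hlow hr hs⟩
      unfold e0 at he
      by_contra hcon
      rw [if_neg hcon] at he
      norm_num at he
    · right
      exact mem_rest (by omega) hvX hrep hlow
  have h3 := (card_le_card hsub).trans (card_union_le _ _)
  have h4 : (((range (X+1)).filter (Exc (2^(bt i0)))).card : ℝ) ≤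
    (LowSet (2^(bt i0)) X).card + (Rest i0 i1 X).card := by exact_mod_cast h3
  linarith

end Pool.Agent.H70.SymDes
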