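import Mathlib
import Pool.Agent.H96.Sing.Defs

/-!
Definitions for the density theorem on orders of groups with difference sets
(`IsSymmetricDesign`, `IsAut`, `IsDifferenceSet` are defined in `Pool.Agent.H96.Sing.Defs`).
-/

namespace Pool.Agent.H70.SymDes

open Finset Pool.Agent.H96.Sing

/-- The numbers `v ≤ X` for which there is a symmetric `(v,k,l)`-design with `1 < k < v - 1` having,
for every prime `q ≡ 3 mod 4` dividing `v`, an automorphism of order `q` with an even number of
fixed points (for instance none). -/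
def semiOrders (X : ℕ) : Set ℕ :=
  {v | v ≤ X ∧ ∃ (k l : ℕ) (B : Fin v → Finset (Fin v)), 1 < k ∧ k + 1 < v ∧
    IsSymmetricDesign v k l B ∧
    ∀ q : ℕ, q.Prime → q % 4 = 3 → q ∣ v →
      ∃ s, IsAut B s ∧ orderOf s = q ∧ Even (univ.filter (fun x => s x = x)).card}

/-- The numbers `v ≤ X` such that some group `G` of order `v` contains a difference set `D` with
`1 < |D| < v - 1`. -/
def diffSetOrders (X : ℕ) : Set ℕ :=
  {v | v ≤ X ∧ ∃ (G : Type) (_ : Group G) (D : Finset G) (l : ℕ), Finite G ∧ Nat.card G = v ∧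
    IsDifferenceSet G D l ∧ 1 < D.card ∧ D.card + 1 < v}

end Pool.Agent.H70.SymDes
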