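import Mathlib
import Pool.Agent.H70.SymDes.Main
import Pool.Agent.H96.Sing.Final
import Pool.Agent.H70.SymDes.SemiDefs

/-!
Almost no `v` carries a nontrivial symmetric design with automorphisms of the orders `q`
(`q ≡ 3 mod 4` a prime factor of `v`) with an even number of fixed points.
-/

namespace Pool.Agent.H70.SymDes

open Finset Classical Pool.Agent.H12 Filter Topology Pool.Agent.H96.Sing

/-- what is needed from the design: for the primes `q ≡ 3 mod 4` dividing `v`, no non-residue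
modulo `q` exactly divides `n` -/
def Loc (v n : ℕ) : Prop := ∀ q : ℕ, q.Prime → q % 4 = 3 → q ∣ v → ∀ p : ℕ, p.Prime →
  ¬ IsSquare (p : ZMod q) → p ≠ q → ¬ (p ∣ n ∧ ¬ p^2 ∣ n)

/-- the integers `v` with `(a,z)`-representation and the local conditions -/
noncomputable def Mz (a z X : ℕ) : Finset ℕ :=
  (range (X+1)).filter (fun v => ∃ t, Rep v a z t (e0 v) ∧ Loc v (((a - z) * t + xx0 a z) * z))

lemma nonsq_mul_sq (D c : ℤ) (hc : c ≠ 0) (hD : ¬ IsSquare D) : ¬ IsSquare (D * c^2) := by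
  rintro ⟨s, hs⟩
  apply hD
  have h1 : c^2 ∣ s^2 := ⟨D, by rw [sq s, ← hs]; ring⟩
  have h2 : c ∣ s := (Int.pow_dvd_pow_iff (by norm_num)).mp h1
  obtain ⟨u, rfl⟩ := h2
  refine ⟨u, ?_⟩
  have h3 : c^2 * D = c^2 * (u * u) := by linear_combination hs
  exact mul_left_cancel₀ (pow_ne_zero 2 hc) h3

lemma exists_class (q a v0 : ℕ) (hq : q.Prime) (hqa : ¬ q ∣ a) :
    ∃ c < q, ∀ t, t % q = c → q ∣ a^2 * t + v0 := by
  have : Fact q.Prime := ⟨hq⟩
  have ha : (a : ZMod q) ≠ 0 := by rw [Ne, ZMod.natCast_eq_zero_iff]; exact hqa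
  refine ⟨(-(v0 : ZMod q) / (a:ZMod q)^2).val, ZMod.val_lt _, fun t ht => ?_⟩
  rw [← ZMod.natCast_eq_zero_iff]
  have h1 : (t : ZMod q) = -(v0 : ZMod q) / (a:ZMod q)^2 := by
    rw [← ZMod.natCast_mod t q, ht, ZMod.natCast_zmod_val]
  push_cast
  rw [h1]
  field_simp
  ring

lemma Mz_small (a z : ℕ) (η : ℝ) (hη : 0 < η) :
    ∀ᶠ X : ℕ in atTop, ((Mz a z X).card : ℝ) ≤ η * X := by
  by_cases hcond : 2 ≤ a ∧ 0 < z ∧ z < a
  swap
  · filter_upwards with X
    have : Mz a z X = ∅ := by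
      unfold Mz
      rw [filter_eq_empty_iff]
      rintro v _ ⟨t, h, -⟩
      exact hcond ⟨h.ha, h.hz0, h.hz⟩
    rw [this, card_empty]
    push_cast
    positivity
  obtain ⟨ha, hz0, hz⟩ := hcond
  -- the primes `q`
  obtain ⟨c0, hc0⟩ : ∃ C : ℝ, Real.exp (-C) < η / 4 := by
    obtain ⟨x, hx⟩ := (Real.tendsto_exp_atBot.eventually
      (gt_mem_nhds (show 0 < η/4 by positivity))).exists
    exact ⟨-x, by rw [neg_neg]; exact hx⟩
  have : NeZero (4 * a) := ⟨by omega⟩
  have hcop : Nat.Coprime (4 * a - 1) (4 * a) := by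
    have h1 : 4 * a = (4 * a - 1) + 1 := by omega
    nth_rewrite 2 [h1]
    simp
  obtain ⟨Q, hQ, hQsum⟩ := Pool.Agent.H24.DS.class_div (a := ((4 * a - 1 : ℕ) : ZMod (4 * a)))
    ((ZMod.isUnit_iff_coprime _ _).mpr hcop) c0
  have hQmod : ∀ q ∈ Q, q % 4 = 3 ∧ ¬ q ∣ a := by
    intro q hq
    have h1 : q ≡ 4 * a - 1 [MOD 4 * a] := (ZMod.natCast_eq_natCast_iff _ _ _).mp (hQ q hq).2
    constructor
    · have h2 : q ≡ 4 * a - 1 [MOD 4] := h1.of_dvd ⟨a, rfl⟩
      unfold Nat.ModEq at h2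
      omega
    · intro hqa
      have h2 : q ≡ 4 * a - 1 [MOD q] := h1.of_dvd (Dvd.dvd.mul_left hqa 4)
      have h3 : q ∣ 4 * a - 1 := (Nat.modEq_zero_iff_dvd).mp (h2.symm.trans (by simp [Nat.ModEq]))
      have h4 : q ∣ 4 * a - (4 * a - 1) := Nat.dvd_sub (Dvd.dvd.mul_left hqa 4) h3
      have h5 : 4 * a - (4 * a - 1) = 1 := by omega
      rw [h5] at h4
      exact (hQ q hq).1.one_lt.ne' (Nat.dvd_one.mp h4)
  have hr : ∃ r : ℕ → ℕ, ∀ q ∈ Q, r q < q ∧ ∀ t, t % q = r q → q ∣ a^2 * t + vv0 a z := by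
    have : ∀ q : ℕ, ∃ c : ℕ, q ∈ Q → c < q ∧ ∀ t, t % q = c → q ∣ a^2 * t + vv0 a z := by
      intro q
      by_cases hq : q ∈ Q
      · obtain ⟨c, hc, hc'⟩ := exists_class q a (vv0 a z) (hQ q hq).1 (hQmod q hq).2
        exact ⟨c, fun _ => ⟨hc, hc'⟩⟩
      · exact ⟨0, fun h => absurd h hq⟩
    choose r hr using this
    exact ⟨r, hr⟩
  obtain ⟨r, hr⟩ := hr
  set η' := η / (16 * (Q.card + 1)) with hη'
  have hη0 : 0 < η' := by positivity
  have hwz : (((a - z) * z : ℕ) : ℤ) ≠ 0 := by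
    have : 0 < (a - z) * z := Nat.mul_pos (by omega) hz0
    exact_mod_cast this.ne'
  have hP : ∃ P : ℕ → Finset ℕ, ∀ q ∈ Q, (∀ p ∈ P q, p.Prime ∧ p ≠ q ∧ ¬ IsSquare (p : ZMod q) ∧
      ¬ p ∣ (a - z) * z) ∧ delta0 (P q) < η' := by
    have : ∀ q : ℕ, ∃ P : Finset ℕ, q ∈ Q → (∀ p ∈ P, p.Prime ∧ p ≠ q ∧ ¬ IsSquare (p : ZMod q) ∧
        ¬ p ∣ (a - z) * z) ∧ delta0 P < η' := by
      intro q
      by_cases hq : q ∈ Q
      · obtain ⟨D, hD, hDp⟩ := exists_disc q (hQ q hq).1 (by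
          have := (hQmod q hq).1; rintro rfl; omega)
        obtain ⟨P, hP, hPε⟩ := delta0_small (D * (((a - z) * z : ℕ) : ℤ)^2)
          (nonsq_mul_sq D _ hwz hD) η' hη0
        refine ⟨P, fun _ => ⟨fun p hp => ?_, hPε⟩⟩
        obtain ⟨hpp, hns⟩ := hP p hp
        have h1 : ¬ IsSquare (D : ZMod p) := by
          intro h
          apply hns
          push_cast
          exact h.mul (IsSquare.sq _)
        obtain ⟨h2, h3⟩ := hDp p hpp h1
        refine ⟨hpp, h2, h3, fun hdvd => hns ?_⟩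
        have h4 : (((a - z) * z : ℕ) : ZMod p) = 0 := by rwa [ZMod.natCast_eq_zero_iff]
        have h5 : ((D * (((a - z) * z : ℕ) : ℤ)^2 : ℤ) : ZMod p) = 0 := by
          rw [Int.cast_mul, Int.cast_pow, Int.cast_natCast, h4]; simp
        rw [h5]
        exact IsSquare.zero
      · exact ⟨∅, fun h => absurd h hq⟩
    choose P hP using this
    exact ⟨P, hP⟩
  obtain ⟨P, hP⟩ := hP
  -- counting
  have hcount : ∀ X : ℕ, ((Mz a z X).card : ℝ) ≤
      (X + (∏ q ∈ Q, q : ℕ)) * (η/4) + ∑ q ∈ Q, 2 * (((X+1 : ℕ):ℝ) + Qsq (P q)) * η' := by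
    intro X
    set E := (range (X+1)).filter (fun t => ∀ q ∈ Q, t % q ≠ r q) with hE
    set F : ℕ → Finset ℕ := fun q => (range (X+1)).filter (fun t => ∀ p ∈ P q,
      ¬ (p ∣ (a-z)*t+xx0 a z ∧ ¬ p^2 ∣ (a-z)*t+xx0 a z)) with hF
    have hch : ∀ v ∈ Mz a z X, ∃ t, Rep v a z t (e0 v) ∧
        Loc v (((a - z) * t + xx0 a z) * z) := by
      intro v hv
      unfold Mz at hv
      rw [mem_filter] at hv
      exact hv.2
    choose! g hg1 hg2 using hch
    have h1 : (Mz a z X).card ≤ (E ∪ Q.biUnion F).card := by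
      refine card_le_card_of_injOn g ?_ ?_
      · intro v hv
        rw [mem_coe] at hv
        have hrep := hg1 v hv
        have hloc := hg2 v hv
        unfold Mz at hv
        rw [mem_filter, mem_range] at hv
        rw [mem_coe, mem_union]
        have hgX : g v < X + 1 := by
          have h1 := hrep.t_le (show v ≤ X by omega)
          have h2 : X / a^2 ≤ X := Nat.div_le_self _ _
          omega
        by_cases hc : ∀ q ∈ Q, g v % q ≠ r q
        · left
          rw [hE, mem_filter, mem_range]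
          exact ⟨hgX, hc⟩
        · right
          push Not at hc
          obtain ⟨q, hq, hqr⟩ := hc
          rw [mem_biUnion]
          refine ⟨q, hq, ?_⟩
          rw [hF]
          simp only
          rw [mem_filter, mem_range]
          refine ⟨hgX, fun p hp hbad => ?_⟩
          obtain ⟨hpp, hpq, hns, hpz⟩ := (hP q hq).1 p hp
          have hqv : q ∣ v := by
            have h2 := (hr q hq).2 (g v) hqr
            have h3 : v = a^2 * g v + vv0 a z := hrep.hv.trans (by unfold vv0; ring)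
            exact h3 ▸ h2
          have hpz' : ¬ p ∣ z := fun h => hpz (Dvd.dvd.mul_left h _)
          refine hloc q (hQ q hq).1 (hQmod q hq).1 hqv p hpp hns hpq ⟨?_, ?_⟩
          · exact Dvd.dvd.mul_right hbad.1 z
          · intro h
            apply hbad.2
            have hcz : Nat.Coprime (p^2) z := Nat.Coprime.pow_left 2
              ((Nat.Prime.coprime_iff_not_dvd hpp).mpr hpz')
            exact hcz.dvd_of_dvd_mul_right h
      · intro v hv v' hv' h
        rw [mem_coe] at hv hv'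
        have e1 := (hg1 v hv).hv
        have e2 := (hg1 v' hv').hv
        rw [← h, ← e1] at e2
        exact e2.symm
    have h2 := h1.trans ((card_union_le _ _).trans (Nat.add_le_add_left card_biUnion_le _))
    have h3 : ((Mz a z X).card : ℝ) ≤ (E.card : ℝ) + ∑ q ∈ Q, ((F q).card : ℝ) := by
      exact_mod_cast h2
    have h4 : (E.card : ℝ) ≤ (X + (∏ q ∈ Q, q : ℕ)) * (η/4) := by
      refine (Pool.Agent.H96.Sing.count_avoid Q (fun q hq => (hQ q hq).1) r
        (fun q hq => (hr q hq).1) X).trans ?_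
      refine mul_le_mul_of_nonneg_left ?_ (by positivity)
      refine (Pool.Agent.H96.Sing.prod_small Q (fun q hq => (hQ q hq).1)).trans (le_trans ?_ hc0.le)
      exact Real.exp_le_exp.mpr (by linarith)
    have h5 : ∀ q ∈ Q, ((F q).card : ℝ) ≤ 2 * (((X+1 : ℕ):ℝ) + Qsq (P q)) * η' := by
      intro q hq
      refine (count_affine (P q) (fun p hp => ((hP q hq).1 p hp).1) (a - z) (xx0 a z) (X+1)
        (fun p hp h => ((hP q hq).1 p hp).2.2.2 (Dvd.dvd.mul_right h z))).trans ?_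
      exact mul_le_mul_of_nonneg_left (hP q hq).2.le (by positivity)
    exact h3.trans (add_le_add h4 (sum_le_sum h5))
  filter_upwards [eventually_ge_atTop ((∏ q ∈ Q, q) + ∑ q ∈ Q, (1 + Qsq (P q)))] with X hX
  refine (hcount X).trans ?_
  have hX1 : ((∏ q ∈ Q, q : ℕ) : ℝ) ≤ X := by
    exact_mod_cast (Nat.le_add_right _ _).trans hX
  have hX0 : (0:ℝ) ≤ X := by positivity
  have h1 : ((X:ℝ) + (∏ q ∈ Q, q : ℕ)) * (η/4) ≤ η/2 * X := by nlinarith
  have h2 : ∑ q ∈ Q, 2 * (((X+1 : ℕ):ℝ) + Qsq (P q)) * η' ≤ ∑ q ∈ Q, 4 * X * η' := by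
    refine sum_le_sum fun q hq => ?_
    have h3 : 1 + Qsq (P q) ≤ X := by
      have h4 : 1 + Qsq (P q) ≤ ∑ q ∈ Q, (1 + Qsq (P q)) :=
        single_le_sum (f := fun q => 1 + Qsq (P q)) (fun _ _ => Nat.zero_le _) hq
      exact (h4.trans (Nat.le_add_left _ _)).trans hX
    have h4 : (1:ℝ) + Qsq (P q) ≤ X := by exact_mod_cast h3
    push_cast
    apply mul_le_mul_of_nonneg_right _ hη0.le
    linarith
  have h3 : ∑ q ∈ Q, 4 * (X:ℝ) * η' ≤ η/4 * X := by
    rw [sum_const, nsmul_eq_mul]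
    have h4 : (Q.card : ℝ) * η' ≤ η/16 := by
      rw [hη', mul_div_assoc', div_le_div_iff₀ (by positivity) (by norm_num)]
      nlinarith
    have := mul_le_mul_of_nonneg_left h4 (show 0 ≤ 4 * (X:ℝ) by positivity)
    linarith
  have h4 : η/4 * (X:ℝ) ≤ η/2 * X := by nlinarith
  linarith

/-- integers with small `a` -/
noncomputable def LowSemi (B X : ℕ) : Finset ℕ :=
  (range (B+1) ×ˢ range (B+1)).biUnion (fun x => Mz x.1 x.2 X)

lemma lowSemi_small (B : ℕ) (ε : ℝ) (hε : 0 < ε) :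
    ∀ᶠ X : ℕ in atTop, ((LowSemi B X).card : ℝ) ≤ ε * X := by
  set I := range (B+1) ×ˢ range (B+1) with hI
  set η := ε / (I.card + 1) with hη
  have hη0 : 0 < η := by positivity
  have h1 : ∀ᶠ X : ℕ in atTop, ∀ x ∈ I, ((Mz x.1 x.2 X).card : ℝ) ≤ η * X := by
    rw [Filter.eventually_all_finset]
    intro x _
    exact Mz_small x.1 x.2 η hη0
  filter_upwards [h1] with X hX
  have h2 : ((LowSemi B X).card : ℝ) ≤ ∑ x ∈ I, ((Mz x.1 x.2 X).card : ℝ) := by
    unfold LowSemi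
    exact_mod_cast card_biUnion_le
  refine h2.trans ((sum_le_sum hX).trans ?_)
  rw [sum_const, nsmul_eq_mul, hη]
  have hX0 : (0:ℝ) ≤ X := by positivity
  have h3 : (I.card : ℝ) * (ε / (I.card + 1)) ≤ ε := by
    rw [mul_div_assoc', div_le_iff₀ (by positivity)]
    nlinarith
  calc (I.card : ℝ) * (ε / (I.card + 1) * X) = (I.card : ℝ) * (ε / (I.card + 1)) * X := by ring
    _ ≤ ε * X := mul_le_mul_of_nonneg_right h3 hX0

lemma even_square {v k l : ℕ} (hd : SymmetricDesignExists v k l) (hl : l < k) (hv : v % 2 = 0)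
    (p : ℕ) (hp : p.Prime) : ¬ (p ∣ k - l ∧ ¬ p^2 ∣ k - l) := by
  rintro ⟨h1, h2⟩
  obtain ⟨s, hs⟩ := brc_even hd hl hv
  apply h2
  have : p ∣ s := by
    rw [hs] at h1
    rcases hp.dvd_or_dvd h1 with h | h <;> exact h
  obtain ⟨c, rfl⟩ := this
  rw [hs]; exact ⟨c * c, by ring⟩

theorem semi_small (ε : ℝ) (hε : 0 < ε) :
    ∀ᶠ X : ℕ in atTop, ((semiOrders X).ncard : ℝ) ≤ ε * X := by
  obtain ⟨i0, i1, hrest⟩ := rest_small (ε/2) (by positivity)
  filter_upwards [hrest, lowSemi_small (2^(bt i0)) (ε/2) (by positivity),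
    eventually_gt_atTop 0] with X h1 h2 hX
  have hsub : semiOrders X ⊆ ↑(LowSemi (2^(bt i0)) X ∪ Rest i0 i1 X : Finset ℕ) := by
    rintro v ⟨hvX, k, l, B, hk, hkv, hd, haut⟩
    have hd' := toH12 hd
    obtain ⟨hlk, -⟩ := design_lt (by omega) hd'
    obtain ⟨a, z, t, hrep, -, hn⟩ := exists_rep hk hkv hd'
    rw [mem_coe, mem_union]
    by_cases hlow : a ≤ 2^(bt i0)
    · left
      unfold LowSemi
      rw [mem_biUnion]
      refine ⟨(a, z), ?_, ?_⟩
      · rw [mem_product, mem_range, mem_range]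
        have := hrep.hz
        exact ⟨by simp only; omega, by simp only; omega⟩
      · unfold Mz
        rw [mem_filter, mem_range]
        refine ⟨by omega, t, hrep, ?_⟩
        rw [← hn]
        intro q hq hq4 hqv p hp hns hpq
        rcases Nat.even_or_odd v with hv | hv
        · exact even_square hd' hlk (Nat.even_iff.mp hv) p hp
        · obtain ⟨s, hs, hsq, hev⟩ := haut q hq hq4 hqv
          exact no_exact hd hlk hv s hs q hq (by rintro rfl; omega) (orderOf_dvd hsq) hev p hp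
            hns hpq
    · right
      exact mem_rest (by omega) (by omega) hrep hlow
  have h3 : (semiOrders X).ncard ≤ (LowSemi (2^(bt i0)) X ∪ Rest i0 i1 X : Finset ℕ).card := by
    rw [← Set.ncard_coe_finset]
    exact Set.ncard_le_ncard hsub (Finset.finite_toSet _)
  have h4 := h3.trans (card_union_le _ _)
  have h5 : ((semiOrders X).ncard : ℝ) ≤
    (LowSemi (2^(bt i0)) X).card + (Rest i0 i1 X).card := by exact_mod_cast h4
  linarith

theorem semi_density :
    Tendsto (fun X : ℕ => ((semiOrders X).ncard : ℝ) / X) atTop (𝓝 0) := by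
  rw [Metric.tendsto_nhds]
  intro ε hε
  filter_upwards [semi_small (ε/2) (by positivity), eventually_gt_atTop 0] with X hX hX0
  have hX0' : (0:ℝ) < X := by exact_mod_cast hX0
  rw [Real.dist_eq, sub_zero, abs_of_nonneg (by positivity), div_lt_iff₀ hX0']
  nlinarith

lemma diffSet_mem' (l : ℕ) (G : Type) [Group G] [Finite G] (D : Finset G)
    (hD : IsDifferenceSet G D l) (h0 : 1 < D.card) (hlt : D.card + 1 < Nat.card G) (X : ℕ)
    (hX : Nat.card G ≤ X) : Nat.card G ∈ semiOrders X := by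
  obtain ⟨B, hB, hfree⟩ := design_of_diffSet G D l hD (by omega)
  refine ⟨hX, D.card, l, B, h0, hlt, hB, fun q hq _ hqv => ?_⟩
  obtain ⟨s, h1, h2, h3⟩ := hfree q hq hqv
  exact free_even hq (by omega) h1 h2 h3

lemma group_mem' (l v k : ℕ) (B : Fin v → Finset (Fin v)) (hB : IsSymmetricDesign v k l B)
    (hk : 1 < k) (hkv : k + 1 < v) (H : Subgroup (Equiv.Perm (Fin v))) (hH : ∀ s ∈ H, IsAut B s)
    (htrans : ∀ x y, ∃ s ∈ H, s x = y)
    (hcond : (∀ x : Fin v, Nat.Coprime (Nat.card (MulAction.stabilizer H x)) v) ∨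
      Group.IsNilpotent H) (X : ℕ) (hX : v ≤ X) : v ∈ semiOrders X := by
  refine ⟨hX, k, l, B, hk, hkv, hB, fun q hq _ hqv => ?_⟩
  have hv : 0 < v := by omega
  obtain ⟨s, hs, h1, h2⟩ := fpf_of_group hv H htrans hcond q hq hqv
  exact free_even hq hv (hH s hs) h1 h2

end Pool.Agent.H70.SymDes
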